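import Mathlib

/-!
Groups all of whose commutators have order dividing five: combinatorial identities coming from
five-fold coverings of a disc with two cone points, and the resulting restrictions on products
of a five-element with an element of order five.
-/

namespace Pool.Agent.Lib.MP_307af1_al

abbrev Word : Type := List ℕ
abbrev Item : Type := Word × List (ℕ × ℕ) × List (ℕ × ℕ)

def app (E : List (Word × Word)) (w : Word) (s : ℕ × ℕ) : Word :=
  if (w.drop s.2).take (E.getD s.1 ([], [])).1.length = (E.getD s.1 ([], [])).1 then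
    w.take s.2 ++ ((E.getD s.1 ([], [])).2 ++ (w.drop s.2).drop (E.getD s.1 ([], [])).1.length)
  else w

def run : List (Word × Word) → List Item → List (Word × Word)
  | E, [] => E
  | E, c :: cs => run (E ++ [(c.2.1.foldl (app E) c.1, c.2.2.foldl (app E) c.1)]) cs

section
variable {G : Type*} [Monoid G] (f : ℕ → G)

def ev (w : Word) : G := (w.map f).prod

theorem ev_append (a b : Word) : ev f (a ++ b) = ev f a * ev f b := by simp [ev]

theorem ev_app {E : List (Word × Word)} (hE : ∀ e ∈ E, ev f e.1 = ev f e.2) (w : Word)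
    (s : ℕ × ℕ) : ev f (app E w s) = ev f w := by
  have h : ev f (E.getD s.1 ([], [])).1 = ev f (E.getD s.1 ([], [])).2 := by
    rw [List.getD_eq_getElem?_getD]
    cases h : E[s.1]? with
    | none => rfl
    | some e => exact hE e (List.mem_of_getElem? h)
  unfold app
  split_ifs with h1
  · rw [ev_append, ev_append, ← h]
    conv_lhs => rw [← h1]
    rw [← ev_append, List.length_take, ← ev_append]
    have : (List.drop s.2 w).drop (min (E.getD s.1 ([], [])).1.length (List.drop s.2 w).length) =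
        (List.drop s.2 w).drop (E.getD s.1 ([], [])).1.length := by
      rcases le_total (E.getD s.1 ([], [])).1.length (List.drop s.2 w).length with h2 | h2
      · rw [min_eq_left h2]
      · rw [min_eq_right h2, List.drop_length, List.drop_of_length_le h2]
    rw [this, List.take_append_drop, List.take_append_drop]
  · rfl

theorem ev_foldl {E : List (Word × Word)} (hE : ∀ e ∈ E, ev f e.1 = ev f e.2)
    (l : List (ℕ × ℕ)) (w : Word) : ev f (l.foldl (app E) w) = ev f w := by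
  induction l generalizing w with
  | nil => rfl
  | cons s l ih => rw [List.foldl_cons, ih, ev_app f hE]

theorem ev_run (cs : List Item) {E : List (Word × Word)} (hE : ∀ e ∈ E, ev f e.1 = ev f e.2) :
    ∀ e ∈ run E cs, ev f e.1 = ev f e.2 := by
  induction cs generalizing E with
  | nil => exact hE
  | cons c cs ih =>
    refine ih fun e he => ?_
    rcases List.mem_append.1 he with he | he
    · exact hE e he
    · rw [List.mem_singleton.1 he, ev_foldl f hE, ev_foldl f hE]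

end

def base : List (Word × Word) :=
  [([0,1],[]), ([1,0],[]), ([2,3],[]), ([3,2],[]), ([0,0,0],[]), ([2,2,2],[]),
   ([0,2,0,2,0,2,0,2,0,2],[]), ([1,2,1,2,1,2,1,2,1,2],[]),
   ([1,3,0,2,1,3,0,2,1,3,0,2,1,3,0,2,1,3,0,2],[])]

def cert : List Item :=
  [([0,0,0,1],[(0,2)],[(4,0)]),
   ([0,0,1],[(9,0)],[(0,1)]),
   ([2,2,2,3],[(2,2)],[(5,0)]),
   ([2,2,3],[(11,0)],[(2,1)]),
   ([1,2,1,2,1,2,1,2,1,2,3,0,3,0,3],[(7,0)],[(2,9),(1,8),(2,7),(1,6),(2,5)]),
   ([2,3,0,3,0,3],[(13,1)],[(2,0)]),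
   ([2,1,2,1,2,1,0],[(1,5)],[(14,0)]),
   ([2,2,1,2,1,2],[(15,1)],[(11,0)]),
   ([2,2,1,2,1,2,1],[(11,0)],[(14,1)]),
   ([3,1,2,1,2,1,1],[(10,5)],[(17,0)]),
   ([0,2,0,2,0,2,0,2,0,2,3,1,3,1,3],[(6,0)],[(2,9),(0,8),(2,7),(0,6),(2,5)]),
   ([3,1,3,1,3,3],[(19,0)],[(12,4)]),
   ([0,0,2,0,2,0,3],[(9,0)],[(20,1)]),
   ([3,1,2,1,2,0,2,0,3],[(21,3)],[(18,0)]),
   ([3,1,2,0,3,1,3,1,2,1,2,0],[(18,6)],[(22,0)]),
   ([1,3,0,2,1,3,0,2,1,3,0,2,1,3,0,2,1,3,0,2,3,1,2,0,3,1,2,0,3,1],[(8,0)],[(2,19),(0,18),(3,17),(1,16),(2,15),(0,14),(3,13),(1,12),(2,11),(0,10)]),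
   ([3,1,2,0,3,1,2,0,3,1,2,0,3,1,2,0,3,0,3,1],[(24,0),(3,9),(1,8),(2,7),(0,6),(3,5),(1,4),(2,3),(9,2)],[(23,8),(21,5),(24,8),(10,7),(16,2),(2,6),(1,5),(11,4),(19,0),(0,4),(2,3),(9,2),(3,5),(1,4)]),
   ([0,1,3,1,3,1],[(0,0)],[(25,1),(9,0)]),
   ([1,3,1,3,1,3],[(19,1),(1,0)],[(25,0),(2,3)]),
   ([2,0,2,0,1],[(0,3)],[(27,0),(10,2)]),
   ([2,0,2,2],[(11,2)],[(28,0),(28,1),(9,0)]),
   ([2,0,3,1,3,1],[(26,2),(0,1),(11,0)],[(29,0),(0,2),(2,1),(10,0)]),
   ([2,3,1,2],[(30,1)],[(2,0)]),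
   ([2,0,0],[(9,1)],[(31,0),(31,1),(10,0)]),
   ([3,1,2,0,2],[(30,0),(9,0)],[(28,2),(1,1),(3,0)]),
   ([0,1,2],[(0,0)],[(33,1),(9,0)]),
   ([1,2,1],[(32,1),(1,0),(34,0)],[(33,0),(0,0)])]

theorem cert_ok : ([1], []) ∈ run base cert := by decide +kernel

/-- The group with generators `u, v` and relators `u^3, v^3, (uv)^5, (u⁻¹v)^5, [u,v]^5`
is trivial. -/
theorem collapse {G : Type*} [Group G] (u v : G) (hu : u ^ 3 = 1) (hv : v ^ 3 = 1)
    (h1 : (u * v) ^ 5 = 1) (h2 : (u⁻¹ * v) ^ 5 = 1) (h3 : (u⁻¹ * v⁻¹ * u * v) ^ 5 = 1) :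
    u = 1 := by
  have key := ev_run (fun n => if n = 0 then u else if n = 1 then u⁻¹ else if n = 2 then v else v⁻¹)
    cert (E := base) (by
      intro e he
      simp only [base, List.mem_cons, List.not_mem_nil, or_false] at he
      rcases he with rfl | rfl | rfl | rfl | rfl | rfl | rfl | rfl | rfl
      · simp [ev]
      · simp [ev]
      · simp [ev]
      · simp [ev]
      · simpa [ev, pow_succ, mul_assoc] using hu
      · simpa [ev, pow_succ, mul_assoc] using hv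
      · simpa [ev, pow_succ, mul_assoc] using h1
      · simpa [ev, pow_succ, mul_assoc] using h2
      · simpa [ev, pow_succ, mul_assoc] using h3) _ cert_ok
  simpa [ev] using key

section
variable {G : Type*} [Group G]

/-- All commutators have order dividing five. -/
def Law (G : Type*) [Group G] : Prop := ∀ x y : G, (x * y * x⁻¹ * y⁻¹) ^ 5 = 1

/-- Elements of the derived subgroup of order dividing five. -/
def Sm (c : G) : Prop := c ∈ commutator G ∧ c ^ 5 = 1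

theorem conj_pow_one {s : G} {n : ℕ} (hs : s ^ n = 1) (g : G) : (g * s * g⁻¹) ^ n = 1 := by
  rw [conj_pow, hs]; group

theorem swap_pow_one {a b : G} {n : ℕ} (hs : (a * b) ^ n = 1) : (b * a) ^ n = 1 := by
  have := conj_pow_one hs b
  rwa [show b * (a * b) * b⁻¹ = b * a by group] at this

theorem Sm.comm (h : Law G) (x y : G) : Sm (x * y * x⁻¹ * y⁻¹) :=
  ⟨Subgroup.commutator_mem_commutator (Subgroup.mem_top x) (Subgroup.mem_top y), h x y⟩

theorem Sm.conj {c : G} (hc : Sm c) (g : G) : Sm (g * c * g⁻¹) :=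
  ⟨(inferInstance : (commutator G).Normal).conj_mem c hc.1 g, conj_pow_one hc.2 g⟩

theorem Sm.inv {c : G} (hc : Sm c) : Sm c⁻¹ :=
  ⟨inv_mem hc.1, by rw [inv_pow, hc.2, inv_one]⟩

/-- The cyclic five-fold covering has genus two. -/
theorem genus_two (h : Law G) (e z : G) (hz : z ^ 5 = 1) :
    ∃ c d : G, Sm c ∧ Sm d ∧ (e * z) ^ 5 = c * (d * e ^ 5) := by
  have key : ∀ a0 a1 a2 a3 a4 : G, ∃ c d : G, Sm c ∧ Sm d ∧
      a0 * a2 * a4 * a1 * a3 = c * (d * (a0 * a1 * a2 * a3 * a4)) := by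
    intro a0 a1 a2 a3 a4
    refine ⟨_, _, (Sm.comm h (a2 * a4) a1).conj a0, (Sm.comm h a4 a3).conj (a0 * a1 * a2), ?_⟩
    group
  obtain ⟨c, d, hc, hd, e1⟩ := key (e * z⁻¹) (z * e * (z ^ 2)⁻¹) (z ^ 2 * e * (z ^ 3)⁻¹)
    (z ^ 3 * e * (z ^ 4)⁻¹) (z ^ 4 * e)
  refine ⟨c, d, hc, hd, ?_⟩
  have e2 : (e * z) ^ 5 = e * z⁻¹ * (z ^ 2 * e * (z ^ 3)⁻¹) * (z ^ 4 * e) * (z * e * (z ^ 2)⁻¹)
      * (z ^ 3 * e * (z ^ 4)⁻¹) * z ^ 5 := by
    simp only [pow_succ (e * z), pow_zero]; group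
  have e3 : e ^ 5 = e * z⁻¹ * (z * e * (z ^ 2)⁻¹) * (z ^ 2 * e * (z ^ 3)⁻¹)
      * (z ^ 3 * e * (z ^ 4)⁻¹) * (z ^ 4 * e) := by
    rw [show e ^ 5 = e * e * e * e * e by simp only [pow_succ, pow_zero, one_mul]]; group
  rw [e2, hz, mul_one, e1, e3]

/-- The covering with monodromy type `(2,2,1)` has genus one. -/
theorem genus_one_two (h : Law G) (e z : G) (hz : z ^ 5 = 1) (h2 : (e * z) ^ 2 = 1) :
    ∃ c : G, c ^ 5 = 1 ∧ e * z = e ^ 5 * c := by
  have e1 : e ^ 5 = e * z * (z ^ 5)⁻¹ * (z ^ 4 * e * z⁻¹) * (z * e * (z ^ 2)⁻¹)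
      * (z ^ 2 * e * (z ^ 3)⁻¹) * (z ^ 3 * e) := by
    rw [show e ^ 5 = e * e * e * e * e by simp only [pow_succ, pow_zero, one_mul]]; group
  have e2 : z ^ 3 * e = (z * e * (z ^ 2)⁻¹)⁻¹ := by
    have : z ^ 3 * e = (z * e * (z ^ 2)⁻¹)⁻¹ * (z * (e * z) ^ 2 * z⁻¹) := by
      simp only [pow_succ (e * z), pow_zero]; group
    rw [this, h2]; group
  have e3 : z ^ 4 * e * z⁻¹ = (z ^ 2 * e * (z ^ 3)⁻¹)⁻¹ := by
    have : z ^ 4 * e * z⁻¹ = (z ^ 2 * e * (z ^ 3)⁻¹)⁻¹ * (z ^ 2 * (e * z) ^ 2 * (z ^ 2)⁻¹) := by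
      simp only [pow_succ (e * z), pow_zero]; group
    rw [this, h2]; group
  refine ⟨_, (Sm.comm h (z ^ 2 * e * (z ^ 3)⁻¹)⁻¹ (z * e * (z ^ 2)⁻¹)).inv.2, ?_⟩
  rw [e1, hz, e3, e2]; group

/-- An involution is never the product of a five-element and an element of order five. -/
theorem no_two (h : Law G) (k : ℕ) : ∀ e z : G, e ^ 5 ^ k = 1 → z ^ 5 = 1 → (e * z) ^ 2 = 1 →
    e * z = 1 := by
  induction k with
  | zero =>
    intro e z he hz h2
    rw [pow_zero, pow_one] at he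
    rw [he, one_mul] at h2 ⊢
    calc z = z ^ 5 * ((z ^ 2) ^ 2)⁻¹ := by group
      _ = 1 := by rw [hz, h2]; group
  | succ k ih =>
    intro e z he hz h2
    obtain ⟨c, hc, e1⟩ := genus_one_two h e z hz h2
    rw [e1] at h2 ⊢
    exact ih _ _ (by rw [← pow_mul, ← pow_succ', he]) hc h2

/-- The covering with monodromy type `(3,1,1)` has genus one. -/
theorem genus_one_three (h : Law G) (e z : G) (hz : z ^ 5 = 1) (h3 : (e * z) ^ 3 = 1) :
    ∃ c : G, c ^ 5 = 1 ∧
      z * (e * z) * z⁻¹ * (e * z) = c * ((e * z)⁻¹ * e ^ 5 * (e * z)⁻¹⁻¹) := by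
  have e1 : e ^ 5 = e * z * (z ^ 5)⁻¹ * (z ^ 4 * e * (z ^ 2)⁻¹) * (z ^ 2 * e * (z ^ 3)⁻¹)
      * (z ^ 3 * e * z⁻¹) * (z * e) := by
    rw [show e ^ 5 = e * e * e * e * e by simp only [pow_succ, pow_zero, one_mul]]; group
  have e2 : z ^ 3 * e * z⁻¹ = ((z ^ 2 * e * (z ^ 3)⁻¹) * (z ^ 4 * e * (z ^ 2)⁻¹))⁻¹ := by
    have : z ^ 3 * e * z⁻¹ = ((z ^ 2 * e * (z ^ 3)⁻¹) * (z ^ 4 * e * (z ^ 2)⁻¹))⁻¹ *
        (z ^ 2 * (e * z) ^ 3 * (z ^ 2)⁻¹) := by
      simp only [pow_succ (e * z), pow_zero]; group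
    rw [this, h3]; group
  refine ⟨_, (Sm.comm h (z ^ 4 * e * (z ^ 2)⁻¹) (z ^ 2 * e * (z ^ 3)⁻¹)).inv.2, ?_⟩
  rw [e1, hz, e2]; group

/-- For elements of order dividing three, `(vu)^3` is a commutator. -/
theorem cube_comm (h : Law G) (u v : G) (hu : u ^ 3 = 1) (hv : v ^ 3 = 1) :
    ((v * u) ^ 5) ^ 3 = 1 := by
  have e1 : (v * u) ^ 3 = (v * u⁻¹) * (u ^ 2 * v) * (u * v * (u ^ 2)⁻¹) * u ^ 3 := by
    simp only [pow_succ (v * u), pow_zero]; group
  have e2 : v * u⁻¹ = ((u * v * (u ^ 2)⁻¹) * (u ^ 2 * v))⁻¹ := by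
    have : v * u⁻¹ = v ^ 3 * ((u * v * (u ^ 2)⁻¹) * (u ^ 2 * v))⁻¹ := by
      rw [show v ^ 3 = v * v * v by simp only [pow_succ, pow_zero, one_mul]]; group
    rw [this, hv, one_mul]
  have e3 := h (u ^ 2 * v)⁻¹ (u * v * (u ^ 2)⁻¹)⁻¹
  rw [← pow_mul, mul_comm, pow_mul, e1, hu, e2]
  refine Eq.trans ?_ e3
  congr 1
  group

theorem no_three_aux (h : Law G) (u z : G) (h3 : u ^ 3 = 1)
    (h5 : (z * u * z⁻¹ * u) ^ 5 = 1) : u = 1 := by
  have h1 : z * u * z⁻¹ = 1 := by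
    refine collapse _ u (conj_pow_one h3 z) h3 h5 ?_ ?_
    · have := h z u⁻¹
      rw [← this]; congr 1; group
    · have := h (z * u * z⁻¹)⁻¹ u⁻¹
      rw [← this]; congr 1; group
  calc u = z⁻¹ * (z * u * z⁻¹) * z := by group
    _ = 1 := by rw [h1]; group

/-- A product of two elements of order five does not have order three. -/
theorem no_three_one (h : Law G) (e z : G) (he : e ^ 5 = 1) (hz : z ^ 5 = 1)
    (h3 : (e * z) ^ 3 = 1) : e * z = 1 := by
  obtain ⟨c, hc, e1⟩ := genus_one_three h e z hz h3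
  refine no_three_aux h _ z h3 ?_
  rw [e1, he]
  simpa using hc

/-- The product of an element of order dividing 25 and one of order five does not have order
three. -/
theorem no_three (h : Law G) (e z : G) (he : e ^ 25 = 1) (hz : z ^ 5 = 1)
    (h3 : (e * z) ^ 3 = 1) : e * z = 1 := by
  obtain ⟨c, hc, e1⟩ := genus_one_three h e z hz h3
  refine no_three_aux h _ z h3 ?_
  have h15 := cube_comm h _ _ h3 (conj_pow_one h3 z)
  obtain ⟨c1, c2, hc1, hc2, e2⟩ := genus_two h c ((e * z)⁻¹ * e ^ 5 * (e * z)⁻¹⁻¹)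
    (conj_pow_one (by rw [← pow_mul]; exact he) _)
  rw [← e1, hc, mul_one] at e2
  rw [e2] at h15 ⊢
  exact no_three_one h _ _ hc1.2 hc2.2 h15

/-- Induction over the derived subgroup. -/
theorem derived_induction (h : Law G) (P : G → Prop) (h1 : P 1)
    (hs : ∀ e z, e ∈ commutator G → P e → Sm z → P (e * z)) : ∀ g ∈ commutator G, P g := by
  intro g hg
  have hc : commutator G = Subgroup.closure {c | Sm c} := by
    apply le_antisymm
    · rw [commutator_eq_closure]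
      apply Subgroup.closure_mono
      rintro _ ⟨x, y, rfl⟩
      exact Sm.comm h x y
    · rw [Subgroup.closure_le]
      exact fun c hc => hc.1
  rw [hc] at hg
  induction hg using Subgroup.closure_induction_right with
  | one => exact h1
  | mul_right x hx y hy ih => exact hs x y (hc ▸ hx) ih hy
  | mul_inv_cancel x hx y hy ih => exact hs x y⁻¹ (hc ▸ hx) ih (Sm.inv hy)

/-- If every element of the derived subgroup has order dividing 50 or 75, then the derived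
subgroup has exponent dividing 25. -/
theorem exp25 (h : Law G) (hu : ∀ u ∈ commutator G, u ^ 50 = 1 ∨ u ^ 75 = 1) :
    ∀ u ∈ commutator G, u ^ 25 = 1 := by
  have fin : ∀ e z : G, e ^ 25 = 1 → z ^ 5 = 1 → (z * e) ^ 2 = 1 ∨ (z * e) ^ 3 = 1 →
      z * e = 1 := by
    intro e z he hz h23
    have : e * z = 1 := by
      rcases h23 with h2 | h3
      · exact no_two h 2 e z he hz (swap_pow_one h2)
      · exact no_three h e z he hz (swap_pow_one h3)
    exact mul_eq_one_comm.mp this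
  have split : ∀ u ∈ commutator G, ((u ^ 5) ^ 5) ^ 2 = 1 ∨ ((u ^ 5) ^ 5) ^ 3 = 1 := by
    intro u hu'
    simpa only [← pow_mul] using hu u hu'
  have A : ∀ x y : G, Sm x → Sm y → (x * y) ^ 25 = 1 := by
    intro x y hx hy
    obtain ⟨c, d, hc, hd, e1⟩ := genus_two h x y hy.2
    rw [hx.2, mul_one] at e1
    obtain ⟨c', d', hc', hd', e2⟩ := genus_two h c d hd.2
    rw [hc.2, mul_one] at e2
    have h23 := split _ (mul_mem hx.1 hy.1)
    rw [show (x * y) ^ 25 = ((x * y) ^ 5) ^ 5 by rw [← pow_mul], e1, e2]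
    rw [e1, e2] at h23
    refine fin d' c' ?_ hc'.2 h23
    rw [show 25 = 5 * 5 from rfl, pow_mul, hd'.2, one_pow]
  have B : ∀ e c : G, e ∈ commutator G → e ^ 25 = 1 → Sm c → (c * e ^ 5) ^ 25 = 1 :=
    fun e c h1 h2 hc => A _ _ hc ⟨pow_mem h1 5, by rw [← pow_mul]; exact h2⟩
  refine derived_induction h (fun u => u ^ 25 = 1) (one_pow _) ?_
  intro e z he he25 hz
  obtain ⟨c1, c2, hc1, hc2, e1⟩ := genus_two h e z hz.2
  have m1 : c2 * e ^ 5 ∈ commutator G := mul_mem hc2.1 (pow_mem he 5)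
  have p1 := B e c2 he he25 hc2
  obtain ⟨c3, c4, hc3, hc4, e2⟩ := genus_two h (c2 * e ^ 5) c1 hc1.2
  have p2 := B _ c4 m1 p1 hc4
  have h23 := split _ (mul_mem he hz.1)
  rw [e1] at h23
  have h23' : ((c2 * e ^ 5 * c1) ^ 5) ^ 2 = 1 ∨ ((c2 * e ^ 5 * c1) ^ 5) ^ 3 = 1 := by
    rcases h23 with h2 | h2
    · left
      rw [← pow_mul] at h2 ⊢
      exact swap_pow_one h2
    · right
      rw [← pow_mul] at h2 ⊢
      exact swap_pow_one h2
  have h5 : (c2 * e ^ 5 * c1) ^ 5 = 1 := by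
    rw [e2] at h23' ⊢
    exact fin _ _ p2 hc3.2 h23'
  show (e * z) ^ 25 = 1
  rw [show (e * z) ^ 25 = ((e * z) ^ 5) ^ 5 by rw [← pow_mul], e1]
  exact swap_pow_one h5

/-- Five-elements. -/
def Five (e : G) : Prop := ∃ k : ℕ, e ^ 5 ^ k = 1

theorem Five.of_pow {e : G} (he : Five (e ^ 5)) : Five e := by
  obtain ⟨k, hk⟩ := he
  exact ⟨k + 1, by rw [pow_succ', pow_mul, hk]⟩

theorem Five.pow {e : G} (he : Five e) (n : ℕ) : Five (e ^ n) := by
  obtain ⟨k, hk⟩ := he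
  exact ⟨k, by rw [← pow_mul, mul_comm, pow_mul, hk, one_pow]⟩

theorem Five.swap {a b : G} (he : Five (a * b)) : Five (b * a) := by
  obtain ⟨k, hk⟩ := he
  exact ⟨k, swap_pow_one hk⟩

theorem Five.mul {a b : G} (ha : Five a) (hb : Five b) (hab : Commute a b) : Five (a * b) := by
  obtain ⟨k, hk⟩ := ha
  obtain ⟨l, hl⟩ := hb
  refine ⟨k + l, ?_⟩
  rw [hab.mul_pow, pow_add, pow_mul, hk, one_pow, one_mul, mul_comm, pow_mul, hl, one_pow]

theorem Five.of_central {a b : G} (ha : Five a) (hb : Five b) (hab : a * b ∈ Subgroup.center G) :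
    Five (a * b) := by
  refine ha.mul hb ?_
  have := Subgroup.mem_center_iff.mp hab a
  rw [← mul_assoc, mul_assoc a b a] at this
  show a * b = b * a
  rw [mul_assoc] at this
  exact mul_left_cancel this

theorem Sm.five {c : G} (hc : Sm c) : Five c := ⟨1, by simpa using hc.2⟩

/-- If all 25-th powers of elements of the derived subgroup are central, then the derived
subgroup is a five-group. -/
theorem five_of_central (h : Law G) (hu : ∀ u ∈ commutator G, u ^ 25 ∈ Subgroup.center G) :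
    ∀ u ∈ commutator G, Five u := by
  have split : ∀ u ∈ commutator G, (u ^ 5) ^ 5 ∈ Subgroup.center G := by
    intro u hu'
    simpa only [← pow_mul] using hu u hu'
  have A : ∀ x y : G, Sm x → Sm y → Five (x * y) := by
    intro x y hx hy
    obtain ⟨c, d, hc, hd, e1⟩ := genus_two h x y hy.2
    rw [hx.2, mul_one] at e1
    obtain ⟨c', d', hc', hd', e2⟩ := genus_two h c d hd.2
    rw [hc.2, mul_one] at e2
    have h23 := split _ (mul_mem hx.1 hy.1)
    apply Five.of_pow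
    apply Five.of_pow
    rw [e1, e2] at h23 ⊢
    exact hc'.five.of_central hd'.five h23
  have B : ∀ e c : G, e ∈ commutator G → Five e → Sm c → Five (c * e ^ 5) := by
    intro e c h1 h2 hc
    apply Five.swap
    apply Five.of_pow
    obtain ⟨c1, c2, hc1, hc2, e1⟩ := genus_two h (e ^ 5) c hc.2
    rw [e1, ← mul_assoc]
    exact (A _ _ hc1 hc2).mul ((h2.pow 5).pow 5)
      (Subgroup.mem_center_iff.mp (split e h1) _)
  refine derived_induction h Five ⟨0, one_pow _⟩ ?_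
  intro e z he he5 hz
  obtain ⟨c1, c2, hc1, hc2, e1⟩ := genus_two h e z hz.2
  have m1 : c2 * e ^ 5 ∈ commutator G := mul_mem hc2.1 (pow_mem he 5)
  have p1 := B e c2 he he5 hc2
  obtain ⟨c3, c4, hc3, hc4, e2⟩ := genus_two h (c2 * e ^ 5) c1 hc1.2
  have p2 := B _ c4 m1 p1 hc4
  have h25 := split _ (mul_mem m1 hc1.1)
  have hz25 := split _ (mul_mem he hz.1)
  rw [e1] at hz25
  have hc : (c2 * e ^ 5 * c1) ^ 5 ∈ Subgroup.center G := by
    have e3 : c2 * e ^ 5 * c1 = c1⁻¹ * (c1 * (c2 * e ^ 5)) * c1⁻¹⁻¹ := by group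
    rw [e3, conj_pow, Subgroup.mem_center_iff.mp hz25 c1⁻¹]
    simpa using hz25
  apply Five.of_pow
  rw [e1]
  apply Five.swap
  apply Five.of_pow
  rw [e2] at hc ⊢
  exact hc3.five.of_central p2 hc

theorem Law.quot (h : Law G) (N : Subgroup G) [N.Normal] : Law (G ⧸ N) := by
  intro x y
  obtain ⟨x, rfl⟩ := QuotientGroup.mk'_surjective N x
  obtain ⟨y, rfl⟩ := QuotientGroup.mk'_surjective N y
  rw [← map_inv, ← map_inv, ← map_mul, ← map_mul, ← map_mul, ← map_pow, h, map_one]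

theorem Law.sub (h : Law G) (K : Subgroup G) : Law K := fun x y => Subtype.ext (h x.1 y.1)

theorem map_commutator_quot (N : Subgroup G) [N.Normal] :
    (commutator G).map (QuotientGroup.mk' N) = commutator (G ⧸ N) := by
  rw [commutator_def, commutator_def, Subgroup.map_commutator,
    Subgroup.map_top_of_surjective _ (QuotientGroup.mk'_surjective N)]

/-- Orders dividing 50 or 75 modulo the centre. -/
theorem five_of_mod_center (h : Law G)
    (hu : ∀ u ∈ commutator G, u ^ 50 ∈ Subgroup.center G ∨ u ^ 75 ∈ Subgroup.center G) :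
    ∀ u ∈ commutator G, u ^ 25 ∈ Subgroup.center G ∧ Five u := by
  have h1 : ∀ u ∈ commutator G, u ^ 25 ∈ Subgroup.center G := by
    have h2 := exp25 (h.quot (Subgroup.center G)) (by
      intro u hu'
      rw [← map_commutator_quot] at hu'
      obtain ⟨u, hu', rfl⟩ := hu'
      rcases hu u hu' with h3 | h3
      · left
        rw [← map_pow]
        exact (QuotientGroup.eq_one_iff _).mpr h3
      · right
        rw [← map_pow]
        exact (QuotientGroup.eq_one_iff _).mpr h3)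
    intro u hu'
    have h3 := h2 (QuotientGroup.mk' _ u) (by
      rw [← map_commutator_quot]; exact ⟨u, hu', rfl⟩)
    rw [← map_pow] at h3
    exact (QuotientGroup.eq_one_iff _).mp h3
  exact fun u hu' => ⟨h1 u hu', five_of_central h h1 u hu'⟩

end

end Pool.Agent.Lib.MP_307af1_al
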