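import Mathlib
import Pool.Agent.Lib.MP_307af1_al.Core

/-!
Transfer to the centraliser of an involution (the construction is copied from the hand-in
`InvolutionTransfer` for the same problem) and the chain of finite two-subgroups.
-/

namespace Pool.Agent.Lib.MP_307af1_al

section
variable {G : Type*} [Group G]

/-- The component of `g` in the centraliser of `a`. -/
def pr (a g : G) : G := g * (a * g⁻¹ * a⁻¹ * g) ^ 2

theorem pr_eq {a c s : G} (hc : a * c * a⁻¹ = c) (hs : a * s * a⁻¹ = s⁻¹) (h5 : s ^ 5 = 1) :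
    pr a (c * s) = c := by
  have h1 : a * (c * s)⁻¹ * a⁻¹ = s * c⁻¹ := by
    calc a * (c * s)⁻¹ * a⁻¹ = ((a * c * a⁻¹) * (a * s * a⁻¹))⁻¹ := by group
      _ = s * c⁻¹ := by rw [hc, hs]; group
  unfold pr
  rw [h1]
  calc c * s * (s * c⁻¹ * (c * s)) ^ 2 = c * s ^ 5 := by
        rw [show s * c⁻¹ * (c * s) = s ^ 2 by rw [pow_two]; group]; group
    _ = c := by rw [h5, mul_one]

theorem decomp (h : ∀ x y : G, (x * y * x⁻¹ * y⁻¹) ^ 5 = 1) {a : G}
    (ha : ∀ g, a ^ 2 * g = g * a ^ 2) (g : G) :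
    ∃ s, g = pr a g * s ∧ a * pr a g * a⁻¹ = pr a g ∧ s ^ 5 = 1 ∧ a * s * a⁻¹ = s⁻¹ := by
  set t := a * g⁻¹ * a⁻¹ * g with ht
  have h5 : t ^ 5 = 1 := by simpa using h a g⁻¹
  have h2 : a * t * a⁻¹ = t⁻¹ := by
    have := ha g⁻¹
    calc a * t * a⁻¹ = (a ^ 2 * g⁻¹) * a⁻¹ * g * a⁻¹ := by rw [ht, pow_two]; group
      _ = t⁻¹ := by rw [this, ht, pow_two]; group
  have h3 : ∀ n : ℕ, a * t ^ n * a⁻¹ = (t ^ n)⁻¹ := by
    intro n
    rw [← conj_pow, h2, inv_pow]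
  refine ⟨t ^ 3, ?_, ?_, ?_, h3 3⟩
  · unfold pr
    rw [← ht, mul_assoc, ← pow_add, h5, mul_one]
  · unfold pr
    rw [← ht]
    have e : a * g * a⁻¹ = g * t⁻¹ := by rw [ht]; group
    calc a * (g * t ^ 2) * a⁻¹ = (a * g * a⁻¹) * (a * t ^ 2 * a⁻¹) := by group
      _ = g * t ^ 2 * (t ^ 5)⁻¹ := by rw [e, h3]; group
      _ = g * t ^ 2 := by rw [h5]; group
  · rw [← pow_mul, mul_comm, pow_mul, h5, one_pow]

/-- The holonomy of a triangle is conjugate to a commutator. -/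
theorem holonomy (h : ∀ x y : G, (x * y * x⁻¹ * y⁻¹) ^ 5 = 1) {a s t : G}
    (hs : a * s * a⁻¹ = s⁻¹) (hs5 : s ^ 5 = 1) (ht : a * t * a⁻¹ = t⁻¹) (ht5 : t ^ 5 = 1) :
    pr a (s * t) ^ 5 = 1 := by
  have h1 : a * (s * t)⁻¹ * a⁻¹ = t * s := by
    calc a * (s * t)⁻¹ * a⁻¹ = ((a * s * a⁻¹) * (a * t * a⁻¹))⁻¹ := by group
      _ = t * s := by rw [hs, ht]; group
  have h2 := h (s ^ 2 * t ^ 4)⁻¹ ((t ^ 2)⁻¹ * s ^ 2)⁻¹
  have e1 : (t ^ 4)⁻¹ = t := by
    rw [inv_eq_iff_mul_eq_one, ← pow_succ, ht5]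
  have e2 : (s ^ 4)⁻¹ = s := by
    rw [inv_eq_iff_mul_eq_one, ← pow_succ, hs5]
  have e3 : (s ^ 2 * t ^ 4)⁻¹ * ((t ^ 2)⁻¹ * s ^ 2)⁻¹ * (s ^ 2 * t ^ 4)⁻¹⁻¹ * ((t ^ 2)⁻¹ * s ^ 2)⁻¹⁻¹
      = (t ^ 4)⁻¹ * (s ^ 4)⁻¹ * (t ^ 2 * s ^ 2 * t ^ 2 * s ^ 2) := by group
  have e4 : pr a (s * t) = t⁻¹ * (t * s * (t ^ 2 * s ^ 2 * t ^ 2 * s ^ 2)) * t⁻¹⁻¹ := by
    unfold pr
    rw [h1]
    simp only [pow_two]; group
  rw [e3, e1, e2] at h2
  rw [e4, conj_pow, h2]; group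

theorem mem_cent {a c : G} : c ∈ Subgroup.centralizer ({a} : Set G) ↔ a * c * a⁻¹ = c := by
  rw [Subgroup.mem_centralizer_singleton_iff, mul_inv_eq_iff_eq_mul, eq_comm]

theorem pr_mul (h : ∀ x y : G, (x * y * x⁻¹ * y⁻¹) ^ 5 = 1) {a : G}
    (ha : ∀ g, a ^ 2 * g = g * a ^ 2) (g1 g2 : G) :
    ∃ m, a * m * a⁻¹ = m ∧ m ^ 5 = 1 ∧ pr a (g1 * g2) = pr a g1 * pr a g2 * m := by
  obtain ⟨s1, e1, c1, p1, i1⟩ := decomp h ha g1
  obtain ⟨s2, e2, c2, p2, i2⟩ := decomp h ha g2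
  set x1 := pr a g1
  set x2 := pr a g2
  have i3 : a * (x2⁻¹ * s1 * x2) * a⁻¹ = (x2⁻¹ * s1 * x2)⁻¹ := by
    calc a * (x2⁻¹ * s1 * x2) * a⁻¹ = (a * x2 * a⁻¹)⁻¹ * (a * s1 * a⁻¹) * (a * x2 * a⁻¹) := by group
      _ = _ := by rw [c2, i1]; group
  have p3 : (x2⁻¹ * s1 * x2) ^ 5 = 1 := by
    have := conj_pow (a := x2⁻¹) (b := s1) (i := 5)
    rw [inv_inv] at this
    rw [this, p1]; group
  obtain ⟨u, e3, c3, p4, i4⟩ := decomp h ha (x2⁻¹ * s1 * x2 * s2)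
  refine ⟨pr a (x2⁻¹ * s1 * x2 * s2), c3, holonomy h i3 p3 i2 p2, ?_⟩
  set m := pr a (x2⁻¹ * s1 * x2 * s2)
  have e4 : g1 * g2 = x1 * x2 * m * u := by
    rw [mul_assoc (x1 * x2), ← e3, e1, e2]; group
  rw [e4]
  refine pr_eq ?_ i4 p4
  calc a * (x1 * x2 * m) * a⁻¹ = (a * x1 * a⁻¹) * (a * x2 * a⁻¹) * (a * m * a⁻¹) := by group
    _ = _ := by rw [c1, c2, c3]

/-- The transfer homomorphism. -/
def tr (h : ∀ x y : G, (x * y * x⁻¹ * y⁻¹) ^ 5 = 1) {a : G} (ha : ∀ g, a ^ 2 * g = g * a ^ 2) :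
    G →* Abelianization (Subgroup.centralizer ({a} : Set G)) :=
  MonoidHom.mk' (fun g => Abelianization.of
    (⟨pr a g, mem_cent.mpr (decomp h ha g).choose_spec.2.1⟩ : Subgroup.centralizer ({a} : Set G)) ^ 5)
    (by
      intro g1 g2
      obtain ⟨m, hm, hm5, e⟩ := pr_mul h ha g1 g2
      have e2 : (⟨pr a (g1 * g2), mem_cent.mpr (decomp h ha (g1 * g2)).choose_spec.2.1⟩ :
          Subgroup.centralizer ({a} : Set G))
          = ⟨pr a g1, mem_cent.mpr (decomp h ha g1).choose_spec.2.1⟩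
            * ⟨pr a g2, mem_cent.mpr (decomp h ha g2).choose_spec.2.1⟩ * ⟨m, mem_cent.mpr hm⟩ :=
        Subtype.ext e
      have e3 : (⟨m, mem_cent.mpr hm⟩ : Subgroup.centralizer ({a} : Set G)) ^ 5 = 1 :=
        Subtype.ext hm5
      rw [e2, map_mul, map_mul, mul_pow, mul_pow, ← map_pow _ (⟨m, _⟩ : Subgroup.centralizer _), e3,
        map_one, mul_one])


/-- An involution of the derived subgroup lies in the derived subgroup of its centraliser. -/
theorem inv_mem_comm_cent (h : Law G) {a : G} (ha : a ∈ commutator G) (h2 : a ^ 2 = 1) :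
    a ∈ ⁅Subgroup.centralizer ({a} : Set G), Subgroup.centralizer ({a} : Set G)⁆ := by
  have ha' : ∀ g, a ^ 2 * g = g * a ^ 2 := fun g => by rw [h2, one_mul, mul_one]
  have e0 : pr a a = a := by unfold pr; group
  have hc : a * pr a a * a⁻¹ = pr a a := by rw [e0]; group
  have h1 : a ∈ (tr h ha').ker := Abelianization.commutator_subset_ker _ ha
  have h3 : (⟨pr a a, mem_cent.mpr hc⟩ : Subgroup.centralizer ({a} : Set G)) ^ 5
      ∈ commutator (Subgroup.centralizer ({a} : Set G)) := by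
    rw [← Abelianization.ker_of, MonoidHom.mem_ker, map_pow]
    exact h1
  rw [← Subgroup.map_subtype_commutator]
  refine ⟨_, h3, ?_⟩
  show pr a a ^ 5 = a
  rw [e0]
  calc a ^ 5 = (a ^ 2) ^ 2 * a := by group
    _ = a := by rw [h2]; group

theorem strip_two {S T : Subgroup G} (hb : ∀ b ∈ S, b ^ 2 ∈ T → b ∈ T) (j : ℕ) :
    ∀ t ∈ S, t ^ 2 ^ j ∈ T → t ∈ T := by
  induction j with
  | zero => intro t _ ht; simpa using ht
  | succ j ih =>
    intro t hS ht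
    refine ih t hS (hb _ (pow_mem hS _) ?_)
    rwa [← pow_mul, ← pow_succ]

theorem step (h : Law G) (hord : ∀ u ∈ commutator G, ∃ j : ℕ, u ^ (2 ^ j * 75) = 1) {a : G}
    (ha : a ∈ commutator G) (h1 : a ≠ 1) (h2 : a ^ 2 = 1) :
    ∃ b ∈ ⁅Subgroup.centralizer ({a} : Set G), Subgroup.centralizer ({a} : Set G)⁆,
      b ∉ Subgroup.zpowers a ∧ b ^ 2 ∈ Subgroup.zpowers a := by
  by_contra hno
  have hb : ∀ b ∈ ⁅Subgroup.centralizer ({a} : Set G), Subgroup.centralizer ({a} : Set G)⁆,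
      b ^ 2 ∈ Subgroup.zpowers a → b ∈ Subgroup.zpowers a := by
    intro b hb hb2
    by_contra hn
    exact hno ⟨b, hb, hn, hb2⟩
  set C := Subgroup.centralizer ({a} : Set G) with hC
  have key := five_of_mod_center (h.sub C) (by
    intro u hu
    right
    have hu' : (u : G) ∈ ⁅C, C⁆ := by
      rw [← Subgroup.map_subtype_commutator]; exact ⟨u, hu, rfl⟩
    obtain ⟨j, hj⟩ := hord u (Subgroup.commutator_mono le_top le_top hu')
    have h75 : (u : G) ^ 75 ∈ Subgroup.zpowers a := by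
      refine strip_two hb j _ (pow_mem hu' _) ?_
      rw [← pow_mul, mul_comm, hj]
      exact one_mem _
    obtain ⟨n, hn⟩ := Subgroup.mem_zpowers_iff.mp h75
    rw [Subgroup.mem_center_iff]
    intro g
    apply Subtype.ext
    have hg : Commute (g : G) a := Subgroup.mem_centralizer_singleton_iff.mp g.2
    show (g : G) * (u : G) ^ 75 = (u : G) ^ 75 * g
    rw [← hn]
    exact hg.zpow_right n)
  have ha' := inv_mem_comm_cent h ha h2
  rw [← hC, ← Subgroup.map_subtype_commutator] at ha'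
  obtain ⟨a', ha', e⟩ := ha'
  obtain ⟨k, hk⟩ := (key a' ha').2
  have hk' : a ^ 5 ^ k = 1 := by
    rw [← e]
    exact congrArg Subtype.val hk
  apply h1
  have hco : Nat.Coprime 2 (5 ^ k) := Nat.Coprime.pow_right k (by norm_num)
  exact (pow_eq_one_iff_of_coprime hco).mp ⟨h2, hk'⟩

/-- A two-subgroup `T` of the derived subgroup, normalised by `K`, such that the derived
subgroup of `K / T` contains an involution. -/
def State (T K : Subgroup G) : Prop :=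
  T ≤ K ∧ (∀ k ∈ K, ∀ t ∈ T, k * t * k⁻¹ ∈ T) ∧ T ≤ commutator G ∧
    (∀ t ∈ T, ∃ j : ℕ, t ^ 2 ^ j = 1) ∧ ∃ a ∈ ⁅K, K⁆, a ∉ T ∧ a ^ 2 ∈ T

theorem State.next (h : Law G) (hord : ∀ u ∈ commutator G, ∃ j : ℕ, u ^ (2 ^ j * 75) = 1)
    {T K : Subgroup G} (hs : State T K) : ∃ T1 K1 : Subgroup G, State T1 K1 ∧ T < T1 := by
  obtain ⟨hTK, hn, hTG, h2, a, haK, haT, ha2⟩ := hs
  have : (T.subgroupOf K).Normal := ⟨fun t ht k => hn k k.2 t ht⟩
  have haG : a ∈ commutator G := Subgroup.commutator_mono le_top le_top haK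
  rw [← Subgroup.map_subtype_commutator] at haK
  obtain ⟨a, haK, rfl⟩ := haK
  set p := QuotientGroup.mk' (T.subgroupOf K) with hp
  have hker : ∀ x : K, p x = 1 ↔ (x : G) ∈ T := fun x => QuotientGroup.eq_one_iff x
  have hsurj : Function.Surjective p := QuotientGroup.mk'_surjective _
  have hpa2 : p a ^ 2 = 1 := by rw [← map_pow, hker]; exact ha2
  obtain ⟨b, hb, hb1, hb2⟩ := step ((h.sub K).quot (T.subgroupOf K)) (by
      intro u hu
      rw [← map_commutator_quot] at hu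
      obtain ⟨u, hu, rfl⟩ := hu
      have hu' : (u : G) ∈ ⁅K, K⁆ := by
        rw [← Subgroup.map_subtype_commutator]; exact ⟨u, hu, rfl⟩
      obtain ⟨j, hj⟩ := hord u (Subgroup.commutator_mono le_top le_top hu')
      refine ⟨j, ?_⟩
      rw [← map_pow, show u ^ (2 ^ j * 75) = 1 from Subtype.ext hj, map_one])
    (a := p a) (by rw [← map_commutator_quot]; exact ⟨a, haK, rfl⟩)
    (fun h0 => haT ((hker a).mp h0)) hpa2
  set C := Subgroup.centralizer ({p a} : Set (K ⧸ T.subgroupOf K)) with hC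
  rw [← Subgroup.map_comap_eq_self_of_surjective hsurj C, ← Subgroup.map_commutator] at hb
  obtain ⟨b, hb, rfl⟩ := hb
  refine ⟨((Subgroup.zpowers (p a)).comap p).map K.subtype, (C.comap p).map K.subtype,
    ⟨?_, ?_, ?_, ?_, b, ?_, ?_, ?_⟩, ?_⟩
  · refine Subgroup.map_mono (Subgroup.comap_mono ?_)
    rw [Subgroup.zpowers_le]
    exact Subgroup.mem_centralizer_singleton_iff.mpr rfl
  · rintro _ ⟨k, hk, rfl⟩ _ ⟨t, ht, rfl⟩
    refine ⟨k * t * k⁻¹, ?_, rfl⟩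
    obtain ⟨n, hn⟩ := Subgroup.mem_zpowers_iff.mp ht
    have hk' : Commute (p k) (p a) := Subgroup.mem_centralizer_singleton_iff.mp hk
    show p (k * t * k⁻¹) ∈ Subgroup.zpowers (p a)
    rw [map_mul, map_mul, map_inv, ← hn, (hk'.zpow_right n).eq, mul_inv_cancel_right]
    exact Subgroup.zpow_mem_zpowers _ n
  · rintro _ ⟨t, ht, rfl⟩
    obtain ⟨n, hn⟩ := Subgroup.mem_zpowers_iff.mp ht
    have h0 : ((a ^ n)⁻¹ * t : K).1 ∈ T := by
      rw [← hker, map_mul, map_inv, map_zpow, hn, inv_mul_cancel]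
    have h3 : (t : G) = (a : G) ^ n * ((a ^ n)⁻¹ * t : K).1 := by simp
    show (t : G) ∈ commutator G
    rw [h3]
    exact mul_mem (zpow_mem haG n) (hTG h0)
  · rintro _ ⟨t, ht, rfl⟩
    obtain ⟨n, hn⟩ := Subgroup.mem_zpowers_iff.mp ht
    have h0 : (t ^ 2 : K).1 ∈ T := by
      rw [← hker, map_pow, ← hn, ← zpow_natCast, ← zpow_mul, mul_comm, zpow_mul, zpow_natCast,
        hpa2, one_zpow]
    obtain ⟨j, hj⟩ := h2 _ h0
    refine ⟨j + 1, ?_⟩
    show (t : G) ^ 2 ^ (j + 1) = 1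
    rw [pow_succ', pow_mul]
    exact hj
  · rw [← Subgroup.map_commutator]
    exact ⟨b, hb, rfl⟩
  · rintro ⟨t, ht, e⟩
    have : t = b := Subtype.ext e
    exact hb1 (this ▸ ht)
  · refine ⟨b ^ 2, ?_, rfl⟩
    show p (b ^ 2) ∈ Subgroup.zpowers (p a)
    rw [map_pow]
    exact hb2
  · refine lt_of_le_of_ne ?_ ?_
    · intro t ht
      refine ⟨⟨t, hTK ht⟩, ?_, rfl⟩
      show p ⟨t, hTK ht⟩ ∈ Subgroup.zpowers (p a)
      rw [(hker ⟨t, hTK ht⟩).mpr ht]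
      exact one_mem _
    · intro e
      apply haT
      rw [e]
      exact ⟨a, Subgroup.mem_zpowers (p a), rfl⟩

theorem exp25_of_finite_two (h : Law G)
    (hord : ∀ u ∈ commutator G, ∃ j : ℕ, u ^ (2 ^ j * 75) = 1)
    (hfin : ∀ T : Subgroup G, T ≤ commutator G → IsPGroup 2 T → Finite T) :
    ∀ u ∈ commutator G, u ^ 25 = 1 := by
  have hno : ∀ b ∈ commutator G, b ^ 2 ∈ (⊥ : Subgroup G) → b ∈ (⊥ : Subgroup G) := by
    intro a ha ha2
    by_contra ha1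
    have s0 : State (⊥ : Subgroup G) ⊤ := by
      refine ⟨le_top, ?_, bot_le, ?_, a, ha, ha1, ha2⟩
      · intro k _ t ht
        rw [Subgroup.mem_bot] at ht ⊢
        rw [ht]; group
      · intro t ht
        exact ⟨0, by simpa using ht⟩
    have nxt : ∀ s : {s : Subgroup G × Subgroup G // State s.1 s.2},
        ∃ s' : {s : Subgroup G × Subgroup G // State s.1 s.2}, s.1.1 < s'.1.1 := by
      intro s
      obtain ⟨T1, K1, h1, h2⟩ := s.2.next h hord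
      exact ⟨⟨(T1, K1), h1⟩, h2⟩
    choose nx hnx using nxt
    let f : ℕ → Subgroup G := fun n => (nx^[n] ⟨(⊥, ⊤), s0⟩).1.1
    have hf : StrictMono f := strictMono_nat_of_lt_succ fun n => by
      show (nx^[n] _).1.1 < (nx^[n + 1] _).1.1
      rw [Function.iterate_succ_apply']
      exact hnx _
    have hU : Finite (⨆ n, f n : Subgroup G) := by
      refine hfin _ (iSup_le fun n => (nx^[n] ⟨(⊥, ⊤), s0⟩).2.2.2.1) ?_
      intro t
      obtain ⟨n, hn⟩ := (Subgroup.mem_iSup_of_directed hf.monotone.directed_le).mp t.2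
      obtain ⟨j, hj⟩ := (nx^[n] ⟨(⊥, ⊤), s0⟩).2.2.2.2.1 t hn
      exact ⟨j, Subtype.ext hj⟩
    have hU' : ((⨆ n, f n : Subgroup G) : Set G).Finite := Set.toFinite _
    have hinj : Function.Injective fun n => (f n : Set G) :=
      SetLike.coe_injective.comp hf.injective
    refine Set.infinite_range_of_injective hinj (hU'.finite_subsets.subset ?_)
    rintro _ ⟨n, rfl⟩
    exact le_iSup f n
  refine exp25 h fun u hu => Or.inr ?_
  obtain ⟨j, hj⟩ := hord u hu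
  rw [← Subgroup.mem_bot]
  refine strip_two hno j _ (pow_mem hu _) ?_
  rw [← pow_mul, mul_comm, hj]
  exact one_mem _

end

end Pool.Agent.Lib.MP_307af1_al
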