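import Mathlib
import Pool.Agent.Lib.MP_307af1_al.Chain

/-!
Three crosscaps are a handle and a crosscap: every element of the derived subgroup is a product
of an element of order dividing five and a square. Together with the transfer to centralisers this
gives square roots of all two-elements of the derived subgroup.
-/

namespace Pool.Agent.Lib.MP_307af1_al

universe u

section
variable {G : Type u} [Group G]

/-- A product of three squares is a commutator times a square. -/
theorem dyck (h : Law G) (x y z : G) :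
    ∃ k, Sm k ∧ x ^ 2 * y ^ 2 * z ^ 2 = k * (x * y * z) ^ 2 := by
  refine ⟨_, (Sm.comm h (y * z) (y⁻¹ * x⁻¹)).conj (x * x * y), ?_⟩
  simp only [pow_two]
  group

theorem Sm.sq {k : G} (hk : Sm k) : (k ^ 3) ^ 2 = k := by
  calc (k ^ 3) ^ 2 = k ^ 5 * k := by group
    _ = k := by rw [hk.2, one_mul]

/-- Every element of the derived subgroup is an element of order dividing five times a square. -/
theorem five_mul_sq (h : Law G) : ∀ g ∈ commutator G,
    ∃ k c, Sm k ∧ c ∈ commutator G ∧ g = k * c ^ 2 := by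
  refine derived_induction h (fun g => ∃ k c, Sm k ∧ c ∈ commutator G ∧ g = k * c ^ 2)
    ⟨1, 1, ⟨one_mem _, one_pow _⟩, one_mem _, by simp⟩ ?_
  rintro e z _ ⟨k, c, hk, hc, rfl⟩ hz
  obtain ⟨k', hk', e1⟩ := dyck h (k ^ 3) c (z ^ 3)
  rw [hk.sq, hz.sq] at e1
  exact ⟨k', _, hk', mul_mem (mul_mem (pow_mem hk.1 3) hc) (pow_mem hz.1 3), e1⟩

theorem exists_pow_five {w : G} {i : ℕ} (hw : w ^ 2 ^ i = 1) : ∃ m : ℕ, (w ^ 5) ^ m = w := by
  apply exists_pow_eq_self_of_coprime
  exact Nat.Coprime.coprime_dvd_right (orderOf_dvd_of_pow_eq_one hw)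
    (Nat.Coprime.pow_right i (by norm_num))

/-- A central two-element of the derived subgroup is a square in the derived subgroup. -/
theorem root_of_central (h : Law G) {w : G} (hw : w ∈ commutator G) {i : ℕ} (hi : w ^ 2 ^ i = 1)
    (hz : w ∈ Subgroup.center G) : ∃ v ∈ commutator G, v ^ 2 = w := by
  obtain ⟨k, c, hk, hc, e⟩ := five_mul_sq h w hw
  obtain ⟨m, hm⟩ := exists_pow_five hi
  have hcomm : Commute k⁻¹ w := Subgroup.mem_center_iff.mp hz k⁻¹
  have e1 : c ^ 2 = k⁻¹ * w := by rw [e]; group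
  have e2 : (c ^ 2) ^ 5 = w ^ 5 := by rw [e1, hcomm.mul_pow, inv_pow, hk.2, inv_one, one_mul]
  refine ⟨c ^ (5 * m), pow_mem hc _, ?_⟩
  rw [← hm, ← e2]
  group

end

/-- Square roots of two-elements, by transfer along the chain of centralisers of the powers. -/
theorem root_aux (j : ℕ) : ∀ (G : Type u) [Group G], Law G → ∀ w ∈ commutator G, ∀ i : ℕ,
    w ^ 2 ^ i = 1 → w ^ 2 ^ j ∈ Subgroup.center G → ∃ v ∈ commutator G, v ^ 2 = w := by
  induction j with
  | zero =>
    intro G _ h w hw i hi hz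
    exact root_of_central h hw hi (by simpa using hz)
  | succ j ih =>
    intro G _ h w hw i hi hz
    set a := w ^ 2 ^ j with ha
    have ha2 : ∀ g, a ^ 2 * g = g * a ^ 2 := by
      intro g
      have := Subgroup.mem_center_iff.mp hz g
      rw [pow_succ, pow_mul, ← ha] at this
      exact this.symm
    have hc : a * w * a⁻¹ = w := by rw [ha]; group
    have e0 : pr a w = w := by
      have := pr_eq (s := 1) hc (by group) (one_pow _)
      rwa [mul_one] at this
    set C := Subgroup.centralizer ({a} : Set G) with hC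
    have hwC : w ∈ C := mem_cent.mpr hc
    have h1 : w ∈ (tr h ha2).ker := Abelianization.commutator_subset_ker _ hw
    have h3 : (⟨pr a w, mem_cent.mpr (decomp h ha2 w).choose_spec.2.1⟩ : C) ^ 5 ∈ commutator C := by
      rw [← Abelianization.ker_of, MonoidHom.mem_ker, map_pow]
      exact h1
    have h4 : (⟨pr a w, mem_cent.mpr (decomp h ha2 w).choose_spec.2.1⟩ : C) = ⟨w, hwC⟩ :=
      Subtype.ext e0
    rw [h4] at h3
    have hi' : (⟨w, hwC⟩ : C) ^ 2 ^ i = 1 := Subtype.ext hi
    obtain ⟨m, hm⟩ := exists_pow_five hi'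
    have h5 : (⟨w, hwC⟩ : C) ∈ commutator C := by
      rw [← hm]
      exact pow_mem h3 m
    have h6 : (⟨w, hwC⟩ : C) ^ 2 ^ j ∈ Subgroup.center C := by
      rw [Subgroup.mem_center_iff]
      intro g
      apply Subtype.ext
      exact Subgroup.mem_centralizer_singleton_iff.mp g.2
    obtain ⟨v, hv, e⟩ := ih C (h.sub C) _ h5 i hi' h6
    refine ⟨v, ?_, congrArg Subtype.val e⟩
    have : (v : G) ∈ ⁅C, C⁆ := by
      rw [← Subgroup.map_subtype_commutator]
      exact ⟨v, hv, rfl⟩
    exact Subgroup.commutator_mono le_top le_top this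

section
variable {G : Type u} [Group G]

/-- Every two-element of the derived subgroup is a square in the derived subgroup. -/
theorem root (h : Law G) {w : G} (hw : w ∈ commutator G) {i : ℕ} (hi : w ^ 2 ^ i = 1) :
    ∃ v ∈ commutator G, v ^ 2 = w :=
  root_aux i G h w hw i hi (by rw [hi]; exact one_mem _)

/-- Every two-element of the derived subgroup starts an infinite sequence of square roots. -/
theorem root_seq (h : Law G) {w : G} (hw : w ∈ commutator G) {i : ℕ} (hi : w ^ 2 ^ i = 1) :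
    ∃ v : ℕ → G, v 0 = w ∧ ∀ n, v n ∈ commutator G ∧ v (n + 1) ^ 2 = v n := by
  have step : ∀ x : {x : G // x ∈ commutator G ∧ ∃ i : ℕ, x ^ 2 ^ i = 1},
      ∃ y : {x : G // x ∈ commutator G ∧ ∃ i : ℕ, x ^ 2 ^ i = 1}, y.1 ^ 2 = x.1 := by
    rintro ⟨x, hx, i, hi⟩
    obtain ⟨v, hv, e⟩ := root h hx hi
    exact ⟨⟨v, hv, i + 1, by rw [pow_succ', pow_mul, e, hi]⟩, e⟩
  choose f hf using step
  refine ⟨fun n => (f^[n] ⟨w, hw, i, hi⟩).1, rfl, fun n => ⟨(f^[n] ⟨w, hw, i, hi⟩).2.1, ?_⟩⟩
  show (f^[n + 1] ⟨w, hw, i, hi⟩).1 ^ 2 = (f^[n] ⟨w, hw, i, hi⟩).1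
  rw [Function.iterate_succ_apply']
  exact hf _

end

end Pool.Agent.Lib.MP_307af1_al
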