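import Mathlib
import Pool.Agent.Lib.MP_307af1_al.Core

/-!
Groups all of whose commutators have order dividing five: the derived subgroup is a five-group as
soon as products of four commutators have order dividing 50 or 75 modulo the centre.
-/

namespace Pool.Agent.Lib.MP_307af1_al

open Pointwise

section
variable {G : Type*} [Group G]

/-- The set of commutators. -/
def Com (G : Type*) [Group G] : Set G := {c | ∃ x y : G, c = x * y * x⁻¹ * y⁻¹}

/-- The set of elements of order dividing `n`. -/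
def Ord (G : Type*) [Group G] (n : ℕ) : Set G := {x | x ^ n = 1}

theorem com_one : (1 : G) ∈ Com G := ⟨1, 1, by group⟩

theorem com_conj {c : G} (hc : c ∈ Com G) (g : G) : g * c * g⁻¹ ∈ Com G := by
  obtain ⟨x, y, rfl⟩ := hc
  exact ⟨g * x * g⁻¹, g * y * g⁻¹, by group⟩

theorem com_five (h : Law G) {c : G} (hc : c ∈ Com G) : c ^ 5 = 1 := by
  obtain ⟨x, y, rfl⟩ := hc
  exact h x y

theorem com_pow_conj (n : ℕ) : ∀ {c : G}, c ∈ Com G ^ n → ∀ g : G, g * c * g⁻¹ ∈ Com G ^ n := by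
  induction n with
  | zero =>
    intro c hc g
    rw [pow_zero, Set.mem_one] at hc ⊢
    rw [hc]; group
  | succ n ih =>
    intro c hc g
    rw [pow_succ] at hc ⊢
    obtain ⟨a, ha, b, hb, rfl⟩ := hc
    exact ⟨_, ih ha g, _, com_conj hb g, by group⟩

/-- The cyclic five-fold covering of a pair of pants has genus two. -/
theorem pants (e z : G) :
    ∃ c ∈ Com G, ∃ d ∈ Com G, (e * z) ^ 5 = c * d * (e ^ 5 * z ^ 5) := by
  have key : ∀ a0 a1 a2 a3 a4 : G, ∃ c ∈ Com G, ∃ d ∈ Com G,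
      a0 * a2 * a4 * a1 * a3 = c * (d * (a0 * a1 * a2 * a3 * a4)) := by
    intro a0 a1 a2 a3 a4
    refine ⟨_, com_conj ⟨a2 * a4, a1, rfl⟩ a0, _, com_conj ⟨a4, a3, rfl⟩ (a0 * a1 * a2), ?_⟩
    group
  obtain ⟨c, hc, d, hd, e1⟩ := key (e * z⁻¹) (z * e * (z ^ 2)⁻¹) (z ^ 2 * e * (z ^ 3)⁻¹)
    (z ^ 3 * e * (z ^ 4)⁻¹) (z ^ 4 * e)
  refine ⟨c, hc, d, hd, ?_⟩
  have e2 : (e * z) ^ 5 = e * z⁻¹ * (z ^ 2 * e * (z ^ 3)⁻¹) * (z ^ 4 * e) * (z * e * (z ^ 2)⁻¹)
      * (z ^ 3 * e * (z ^ 4)⁻¹) * z ^ 5 := by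
    simp only [pow_succ (e * z), pow_zero]; group
  have e3 : e ^ 5 = e * z⁻¹ * (z * e * (z ^ 2)⁻¹) * (z ^ 2 * e * (z ^ 3)⁻¹)
      * (z ^ 3 * e * (z ^ 4)⁻¹) * (z ^ 4 * e) := by
    rw [show e ^ 5 = e * e * e * e * e by simp only [pow_succ, pow_zero, one_mul]]; group
  rw [e2, e1, e3]
  simp only [mul_assoc]

theorem com_two {c d k : G} {n : ℕ} (hc : c ∈ Com G) (hd : d ∈ Com G) (hk : k ∈ Com G ^ n) :
    c * d * k ∈ Com G ^ (n + 2) := by
  rw [add_comm, pow_add, pow_two]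
  exact Set.mul_mem_mul (Set.mul_mem_mul hc hd) hk

theorem cover_zero (b : ℕ) : ∀ g ∈ Ord G 25 ^ (b + 1),
    g ^ 5 ∈ Com G ^ (2 * b) * Ord G 5 ^ (b + 1) := by
  induction b with
  | zero =>
    intro g hg
    rw [zero_add, pow_one] at hg
    rw [zero_add, pow_one, mul_zero, pow_zero, one_mul]
    show (g ^ 5) ^ 5 = 1
    rw [← pow_mul]; exact hg
  | succ b ih =>
    intro g hg
    rw [pow_succ'] at hg
    obtain ⟨e, he, g', hg', rfl⟩ := hg
    obtain ⟨k, hk, f, hf, e1⟩ := ih g' hg'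
    obtain ⟨c, hc, d, hd, e2⟩ := pants e g'
    refine ⟨c * d * (e ^ 5 * k * (e ^ 5)⁻¹), com_two hc hd (com_pow_conj _ hk _), e ^ 5 * f, ?_, ?_⟩
    · rw [pow_succ']
      refine Set.mul_mem_mul ?_ hf
      show (e ^ 5) ^ 5 = 1
      rw [← pow_mul]; exact he
    · have e1' : k * f = g' ^ 5 := e1
      show _ * _ = (e * g') ^ 5
      rw [e2, ← e1']; group

theorem cover (a : ℕ) : ∀ b n : ℕ, a + b = n + 1 → ∀ g ∈ Ord G 5 ^ a * Ord G 25 ^ b,
    g ^ 5 ∈ Com G ^ (2 * n) * Ord G 5 ^ b := by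
  induction a with
  | zero =>
    intro b n hn g hg
    obtain rfl : b = n + 1 := by omega
    rw [pow_zero, one_mul] at hg
    exact cover_zero n g hg
  | succ a ih =>
    intro b n hn g hg
    rw [pow_succ', mul_assoc] at hg
    obtain ⟨z, hz, g', hg', rfl⟩ := hg
    have hz5 : z ^ 5 = 1 := hz
    rcases n with _ | n
    · obtain rfl : a = 0 := by omega
      obtain rfl : b = 0 := by omega
      rw [pow_zero, pow_zero, mul_one, Set.mem_one] at hg'
      rw [mul_zero, pow_zero, pow_zero, mul_one, Set.mem_one]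
      show (z * g') ^ 5 = 1
      rw [hg', mul_one, hz5]
    · obtain ⟨k, hk, f, hf, e1⟩ := ih b n (by omega) g' hg'
      obtain ⟨c, hc, d, hd, e2⟩ := pants z g'
      refine ⟨c * d * k, com_two hc hd hk, f, hf, ?_⟩
      have e1' : k * f = g' ^ 5 := e1
      show _ * _ = (z * g') ^ 5
      rw [e2, ← e1', hz5]; group

theorem ord_pow_conj (m n : ℕ) :
    ∀ {c : G}, c ∈ Ord G m ^ n → ∀ g : G, g * c * g⁻¹ ∈ Ord G m ^ n := by
  induction n with
  | zero =>
    intro c hc g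
    rw [pow_zero, Set.mem_one] at hc ⊢
    rw [hc]; group
  | succ n ih =>
    intro c hc g
    rw [pow_succ] at hc ⊢
    obtain ⟨a, ha, b, hb, rfl⟩ := hc
    exact ⟨_, ih ha g, _, conj_pow_one hb g, by group⟩

theorem swap_mem {k f : G} {a b : ℕ} (hk : k ∈ Ord G 25 ^ b) (hf : f ∈ Ord G 5 ^ a) :
    k * f ∈ Ord G 5 ^ a * Ord G 25 ^ b :=
  ⟨k * f * k⁻¹, ord_pow_conj _ _ hf k, k, hk, by group⟩

/-- If products of four commutators have order dividing 25, the derived subgroup is a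
five-group. -/
theorem five_of_four (h : Law G) (h4 : Com G ^ 4 ⊆ Ord G 25) :
    ∀ g ∈ commutator G, Five g := by
  have hm : ∀ m : ℕ, Com G ^ (4 * m) ⊆ Ord G 25 ^ m := by
    intro m
    rw [pow_mul]
    exact Set.pow_subset_pow_left h4
  have h1 : Com G ⊆ Ord G 5 := fun c hc => com_five h hc
  have h24 : Com G ^ 2 ⊆ Com G ^ 4 := Set.pow_subset_pow_right com_one (by norm_num)
  have main : ∀ φ a b : ℕ, a + 2 * b = φ → ∀ g ∈ Ord G 5 ^ a * Ord G 25 ^ b, Five g := by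
    intro φ
    induction φ with
    | zero =>
      intro a b hab g hg
      obtain rfl : a = 0 := by omega
      obtain rfl : b = 0 := by omega
      rw [pow_zero, pow_zero, mul_one, Set.mem_one] at hg
      exact ⟨0, by rw [hg, one_pow]⟩
    | succ φ ih =>
      have odd : ∀ a b m : ℕ, a + 2 * b = φ + 1 → a + b = 2 * m + 1 →
          ∀ g ∈ Ord G 5 ^ a * Ord G 25 ^ b, Five g := by
        intro a b m hab hm' g hg
        obtain ⟨k, hk, f, hf, e1⟩ := cover a b (2 * m) hm' g hg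
        have e1' : k * f = g ^ 5 := e1
        apply Five.of_pow
        rw [← e1']
        rw [show 2 * (2 * m) = 4 * m by ring] at hk
        exact ih b m (by omega) _ (swap_mem (hm m hk) hf)
      intro a b hab g hg
      rcases Nat.even_or_odd' (a + b) with ⟨m, hm' | hm'⟩
      · obtain ⟨m, rfl⟩ : ∃ m', m = m' + 1 := ⟨m - 1, by omega⟩
        obtain ⟨k, hk, f, hf, e1⟩ := cover a b (2 * m + 1) (by omega) g hg
        have e1' : k * f = g ^ 5 := e1
        apply Five.of_pow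
        rw [← e1']
        rw [show 2 * (2 * m + 1) = 4 * m + 2 by ring, pow_add] at hk
        obtain ⟨k1, hk1, k2, hk2, rfl⟩ := hk
        rcases Nat.even_or_odd' (b + m) with ⟨r, hr | hr⟩
        · refine odd b (m + 1) r (by omega) (by omega) _ (swap_mem ?_ hf)
          rw [pow_succ]
          exact Set.mul_mem_mul (hm m hk1) (h4 (h24 hk2))
        · refine odd (2 + b) m (r + 1) (by omega) (by omega) _ ?_
          show k1 * k2 * f ∈ _
          rw [mul_assoc]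
          refine swap_mem (hm m hk1) ?_
          rw [pow_add]
          exact Set.mul_mem_mul (Set.pow_subset_pow_left h1 hk2) hf
      · exact odd a b m hab hm' g hg
  intro g hg
  obtain ⟨n, hn⟩ := derived_induction h (fun u => ∃ n : ℕ, u ∈ Ord G 5 ^ n)
    ⟨0, by rw [pow_zero]; exact Set.mem_one.2 rfl⟩
    (fun e z _ ⟨n, hn⟩ hz => ⟨n + 1, by rw [pow_succ]; exact Set.mul_mem_mul hn hz.2⟩) g hg
  exact main n n 0 rfl g (by rw [pow_zero, mul_one]; exact hn)

theorem mem_com_four {u : G} (hu : u ∈ Com G ^ 4) :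
    ∃ c1 ∈ Com G, ∃ c2 ∈ Com G, ∃ c3 ∈ Com G, ∃ c4 ∈ Com G, u = c1 * c2 * c3 * c4 := by
  rw [show Com G ^ 4 = Com G * Com G * Com G * Com G by
    simp only [pow_succ, pow_zero, one_mul]] at hu
  obtain ⟨_, ⟨_, ⟨c1, h1, c2, h2, rfl⟩, c3, h3, rfl⟩, c4, h4, rfl⟩ := hu
  exact ⟨c1, h1, c2, h2, c3, h3, c4, h4, rfl⟩

/-- The hypothesis on products of four commutators, for a property `P`. -/
def OnFour (G : Type*) [Group G] (P : G → Prop) : Prop :=
  ∀ c1 ∈ Com G, ∀ c2 ∈ Com G, ∀ c3 ∈ Com G, ∀ c4 ∈ Com G, P (c1 * c2 * c3 * c4)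

theorem four_exp25 (h : Law G) (hu : OnFour G fun u => u ^ 50 = 1 ∨ u ^ 75 = 1) :
    OnFour G fun u => u ^ 25 = 1 := by
  have split : ∀ u : G, u ^ 50 = 1 ∨ u ^ 75 = 1 →
      ((u ^ 5) ^ 5) ^ 2 = 1 ∨ ((u ^ 5) ^ 5) ^ 3 = 1 := by
    intro u hu'
    simpa only [← pow_mul] using hu'
  have fin : ∀ e z : G, e ^ 25 = 1 → z ^ 5 = 1 → (e * z) ^ 2 = 1 ∨ (e * z) ^ 3 = 1 →
      e * z = 1 := by
    intro e z he hz h23
    rcases h23 with h2 | h3
    · exact no_two h 2 e z he hz h2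
    · exact no_three h e z he hz h3
  have A : ∀ c ∈ Com G, ∀ d ∈ Com G, (c * d) ^ 25 = 1 := by
    intro x hx y hy
    obtain ⟨c, hc, d, hd, e1⟩ := pants x y
    rw [com_five h hx, com_five h hy, mul_one, mul_one] at e1
    obtain ⟨c', hc', d', hd', e2⟩ := pants c d
    rw [com_five h hc, com_five h hd, mul_one, mul_one] at e2
    have h23 := split _ (hu x hx y hy 1 com_one 1 com_one)
    rw [mul_one, mul_one, e1, e2] at h23
    rw [show (x * y) ^ 25 = ((x * y) ^ 5) ^ 5 by rw [← pow_mul], e1, e2]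
    refine fin c' d' ?_ (com_five h hd') h23
    rw [show 25 = 5 * 5 from rfl, pow_mul, com_five h hc', one_pow]
  have step : ∀ e z : G, e ^ 25 = 1 → z ^ 5 = 1 →
      ∃ e' z' : G, e' ^ 25 = 1 ∧ z' ^ 5 = 1 ∧ (e * z) ^ 5 = e' * z' := by
    intro e z he hz
    obtain ⟨c, hc, d, hd, e1⟩ := pants e z
    refine ⟨c * d, e ^ 5, A c hc d hd, by rw [← pow_mul]; exact he, ?_⟩
    rw [e1, hz, mul_one]
  have B : ∀ e z : G, e ^ 25 = 1 → z ^ 5 = 1 → (e * z) ^ 50 = 1 ∨ (e * z) ^ 75 = 1 →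
      (e * z) ^ 25 = 1 := by
    intro e z he hz h23
    obtain ⟨e1, z1, he1, hz1, q1⟩ := step e z he hz
    obtain ⟨e2, z2, he2, hz2, q2⟩ := step e1 z1 he1 hz1
    have h23' := split _ h23
    rw [q1, q2] at h23'
    rw [show (e * z) ^ 25 = ((e * z) ^ 5) ^ 5 by rw [← pow_mul], q1, q2]
    exact fin e2 z2 he2 hz2 h23'
  intro c1 h1 c2 h2 c3 h3 c4 h4
  refine B _ _ (B _ _ (A c1 h1 c2 h2) (com_five h h3) ?_) (com_five h h4)
    (hu c1 h1 c2 h2 c3 h3 c4 h4)
  simpa only [mul_one] using hu c1 h1 c2 h2 c3 h3 1 com_one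

theorem four_five (h : Law G) (hu : OnFour G fun u => u ^ 25 ∈ Subgroup.center G) :
    OnFour G Five := by
  have five1 : ∀ c ∈ Com G, Five c := fun c hc => ⟨1, by simpa using com_five h hc⟩
  have Z2 : ∀ c ∈ Com G, ∀ d ∈ Com G, (c * d) ^ 25 ∈ Subgroup.center G := by
    intro c hc d hd
    simpa only [mul_one] using hu c hc d hd 1 com_one 1 com_one
  have A : ∀ c ∈ Com G, ∀ d ∈ Com G, Five (c * d) := by
    intro x hx y hy
    obtain ⟨c, hc, d, hd, e1⟩ := pants x y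
    rw [com_five h hx, com_five h hy, mul_one, mul_one] at e1
    obtain ⟨c', hc', d', hd', e2⟩ := pants c d
    rw [com_five h hc, com_five h hd, mul_one, mul_one] at e2
    have hz := Z2 x hx y hy
    rw [show (x * y) ^ 25 = ((x * y) ^ 5) ^ 5 by rw [← pow_mul], e1, e2] at hz
    apply Five.of_pow
    apply Five.of_pow
    rw [e1, e2]
    exact (five1 c' hc').of_central (five1 d' hd') hz
  have B : ∀ e z : G, Five e → e ^ 25 ∈ Subgroup.center G → z ^ 5 = 1 →
      (e * z) ^ 25 ∈ Subgroup.center G → Five (e * z) := by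
    intro e z he he25 hz hez
    obtain ⟨c, hc, d, hd, e1⟩ := pants e z
    rw [hz, mul_one] at e1
    obtain ⟨c', hc', d', hd', e2⟩ := pants (c * d) (e ^ 5)
    rw [← pow_mul e, ← mul_assoc] at e2
    rw [show (e * z) ^ 25 = ((e * z) ^ 5) ^ 5 by rw [← pow_mul], e1, e2] at hez
    apply Five.of_pow
    apply Five.of_pow
    rw [e1, e2]
    have hz2 : c' * d' * (c * d) ^ 5 ∈ Subgroup.center G := by
      have := mul_mem hez (inv_mem he25)
      rwa [mul_inv_cancel_right] at this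
    exact ((A c' hc' d' hd').of_central ((A c hc d hd).pow 5) hz2).of_central (he.pow _) hez
  intro c1 h1 c2 h2 c3 h3 c4 h4
  have Z3 : (c1 * c2 * c3) ^ 25 ∈ Subgroup.center G := by
    simpa only [mul_one] using hu c1 h1 c2 h2 c3 h3 1 com_one
  exact B _ _ (B _ _ (A c1 h1 c2 h2) (Z2 c1 h1 c2 h2) (com_five h h3) Z3) Z3 (com_five h h4)
    (hu c1 h1 c2 h2 c3 h3 c4 h4)

theorem com_lift (N : Subgroup G) [N.Normal] {c : G ⧸ N} (hc : c ∈ Com (G ⧸ N)) :
    ∃ c' ∈ Com G, QuotientGroup.mk' N c' = c := by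
  obtain ⟨x, y, rfl⟩ := hc
  obtain ⟨x, rfl⟩ := QuotientGroup.mk'_surjective N x
  obtain ⟨y, rfl⟩ := QuotientGroup.mk'_surjective N y
  exact ⟨_, ⟨x, y, rfl⟩, by simp only [map_mul, map_inv]⟩

theorem OnFour.quot (N : Subgroup G) [N.Normal] {P : G ⧸ N → Prop}
    (hu : OnFour G fun u => P (QuotientGroup.mk' N u)) : OnFour (G ⧸ N) P := by
  intro c1 h1 c2 h2 c3 h3 c4 h4
  obtain ⟨d1, k1, e1⟩ := com_lift N h1
  obtain ⟨d2, k2, e2⟩ := com_lift N h2
  obtain ⟨d3, k3, e3⟩ := com_lift N h3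
  obtain ⟨d4, k4, e4⟩ := com_lift N h4
  rw [← e1, ← e2, ← e3, ← e4]
  simpa only [map_mul] using hu d1 k1 d2 k2 d3 k3 d4 k4

theorem com_map (N : Subgroup G) [N.Normal] {c : G} (hc : c ∈ Com G) :
    QuotientGroup.mk' N c ∈ Com (G ⧸ N) := by
  obtain ⟨x, y, rfl⟩ := hc
  exact ⟨_, _, by simp only [map_mul, map_inv]; rfl⟩

/-- The central five-elements. -/
def cenFive (G : Type*) [Group G] : Subgroup G where
  carrier := {z | z ∈ Subgroup.center G ∧ Five z}
  one_mem' := ⟨one_mem _, 0, one_pow _⟩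
  mul_mem' := fun ha hb => ⟨mul_mem ha.1 hb.1, ha.2.of_central hb.2 (mul_mem ha.1 hb.1)⟩
  inv_mem' := fun ⟨ha, k, hk⟩ => ⟨inv_mem ha, k, by rw [inv_pow, hk, inv_one]⟩

theorem cenFive_normal : (cenFive G).Normal :=
  ⟨fun z hz g => by
    have : g * z * g⁻¹ = z := by rw [Subgroup.mem_center_iff.mp hz.1 g]; group
    rw [this]; exact hz⟩

/-- Products of four commutators have order dividing 50 or 75 modulo the centre. -/
theorem five_of_four_center (h : Law G)
    (hu : OnFour G fun u => u ^ 50 ∈ Subgroup.center G ∨ u ^ 75 ∈ Subgroup.center G) :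
    ∀ g ∈ commutator G, Five g := by
  have h1 : OnFour G fun u => u ^ 25 ∈ Subgroup.center G := by
    have h2 := four_exp25 (h.quot (Subgroup.center G)) (OnFour.quot _ (by
      intro c1 h1 c2 h2 c3 h3 c4 h4
      rcases hu c1 h1 c2 h2 c3 h3 c4 h4 with h5 | h5
      · left
        rw [← map_pow]
        exact (QuotientGroup.eq_one_iff _).mpr h5
      · right
        rw [← map_pow]
        exact (QuotientGroup.eq_one_iff _).mpr h5))
    intro c1 h1 c2 h2' c3 h3 c4 h4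
    have h5 := h2 _ (com_map _ h1) _ (com_map _ h2') _ (com_map _ h3) _ (com_map _ h4)
    simp only [← map_mul, ← map_pow] at h5
    exact (QuotientGroup.eq_one_iff _).mp h5
  have h2 := four_five h h1
  have := cenFive_normal (G := G)
  have h3 : OnFour (G ⧸ cenFive G) fun u => u ^ 25 = 1 := OnFour.quot _ (by
    intro c1 k1 c2 k2 c3 k3 c4 k4
    show _ ^ 25 = 1
    rw [← map_pow]
    exact (QuotientGroup.eq_one_iff _).mpr
      ⟨h1 c1 k1 c2 k2 c3 k3 c4 k4, (h2 c1 k1 c2 k2 c3 k3 c4 k4).pow 25⟩)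
  have h4 := five_of_four (h.quot (cenFive G)) (by
    intro u hu'
    obtain ⟨c1, k1, c2, k2, c3, k3, c4, k4, rfl⟩ := mem_com_four hu'
    exact h3 c1 k1 c2 k2 c3 k3 c4 k4)
  intro g hg
  obtain ⟨k, hk⟩ := h4 (QuotientGroup.mk' _ g) (by
    rw [← map_commutator_quot]; exact ⟨g, hg, rfl⟩)
  rw [← map_pow] at hk
  obtain ⟨l, hl⟩ := ((QuotientGroup.eq_one_iff _).mp hk).2
  exact ⟨k + l, by rw [pow_add, pow_mul, hl]⟩

end

end Pool.Agent.Lib.MP_307af1_al
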