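import Mathlib
import Pool.Agent.Lib.MP_307af1_al.Dyck
import Pool.Agent.Lib.MP_307af1_al.Four

/-!
Groups all of whose commutators have order dividing five: transfer to the centraliser of a
finite set of commuting two-elements, and the case in which centralisers of two-subgroups are
centralisers of finite subsets.
-/

namespace Pool.Agent.Lib.MP_307af1_al

section
variable {G : Type*} [Group G]

theorem transfer_one (h : Law G) {b w : G} (hb : ∀ g, b ^ 2 * g = g * b ^ 2)
    (hw : w ∈ commutator G) {i : ℕ} (hi : w ^ 2 ^ i = 1) (hc : b * w * b⁻¹ = w) :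
    w ∈ ⁅Subgroup.centralizer ({b} : Set G), Subgroup.centralizer ({b} : Set G)⁆ := by
  have e0 : pr b w = w := by
    have := pr_eq (s := 1) hc (by group) (one_pow _)
    rwa [mul_one] at this
  set C := Subgroup.centralizer ({b} : Set G) with hC
  have hwC : w ∈ C := mem_cent.mpr hc
  have h1 : w ∈ (tr h hb).ker := Abelianization.commutator_subset_ker _ hw
  have h3 : (⟨pr b w, mem_cent.mpr (decomp h hb w).choose_spec.2.1⟩ : C) ^ 5 ∈ commutator C := by
    rw [← Abelianization.ker_of, MonoidHom.mem_ker, map_pow]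
    exact h1
  have h4 : (⟨pr b w, mem_cent.mpr (decomp h hb w).choose_spec.2.1⟩ : C) = ⟨w, hwC⟩ :=
    Subtype.ext e0
  rw [h4] at h3
  have hi' : (⟨w, hwC⟩ : C) ^ 2 ^ i = 1 := Subtype.ext hi
  obtain ⟨m, hm⟩ := exists_pow_five hi'
  have h5 : (⟨w, hwC⟩ : C) ∈ commutator C := by
    rw [← hm]
    exact pow_mem h3 m
  rw [← Subgroup.map_subtype_commutator]
  exact ⟨_, h5, rfl⟩

theorem transfer_sub (h : Law G) (K : Subgroup G) {b w : G} (hbK : b ∈ K)
    (hb : ∀ g ∈ K, b ^ 2 * g = g * b ^ 2) (hw : w ∈ ⁅K, K⁆) {i : ℕ} (hi : w ^ 2 ^ i = 1)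
    (hc : b * w * b⁻¹ = w) :
    w ∈ ⁅K ⊓ Subgroup.centralizer ({b} : Set G), K ⊓ Subgroup.centralizer ({b} : Set G)⁆ := by
  rw [← Subgroup.map_subtype_commutator] at hw
  obtain ⟨w, hw, rfl⟩ := hw
  have h1 := transfer_one (h.sub K) (b := ⟨b, hbK⟩) (fun g => Subtype.ext (hb g g.2)) hw
    (i := i) (Subtype.ext hi) (Subtype.ext hc)
  have h2 := Subgroup.mem_map_of_mem K.subtype h1
  rw [Subgroup.map_commutator] at h2
  have h3 : (Subgroup.centralizer ({⟨b, hbK⟩} : Set K)).map K.subtype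
      ≤ K ⊓ Subgroup.centralizer ({b} : Set G) := by
    rintro _ ⟨g, hg, rfl⟩
    exact ⟨g.2, mem_cent.mpr (congrArg Subtype.val (mem_cent.mp hg))⟩
  exact Subgroup.commutator_mono h3 h3 h2

theorem transfer_pow (h : Law G) {f w : G} {i : ℕ} (hi : w ^ 2 ^ i = 1) (hc : Commute f w)
    (j : ℕ) : ∀ K : Subgroup G, f ∈ K → (∀ g ∈ K, f ^ 2 ^ j * g = g * f ^ 2 ^ j) → w ∈ ⁅K, K⁆ →
    w ∈ ⁅K ⊓ Subgroup.centralizer ({f} : Set G), K ⊓ Subgroup.centralizer ({f} : Set G)⁆ := by
  induction j with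
  | zero =>
    intro K _ hz hw
    have : K ≤ K ⊓ Subgroup.centralizer ({f} : Set G) := fun g hg =>
      ⟨hg, Subgroup.mem_centralizer_singleton_iff.mpr (by simpa using (hz g hg).symm)⟩
    exact Subgroup.commutator_mono this this hw
  | succ j ih =>
    intro K hf hz hw
    have h1 := transfer_sub h K (b := f ^ 2 ^ j) (pow_mem hf _)
      (fun g hg => by rw [← pow_mul, ← pow_succ]; exact hz g hg) hw hi
      (by rw [(hc.pow_left _).eq]; group)
    have h2 := ih (K ⊓ Subgroup.centralizer ({f ^ 2 ^ j} : Set G))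
      (Subgroup.mem_inf.mpr ⟨hf, mem_cent.mpr (by group)⟩)
      (fun g hg => (Subgroup.mem_centralizer_singleton_iff.mp (Subgroup.mem_inf.mp hg).2).symm) h1
    have h3 : K ⊓ Subgroup.centralizer ({f ^ 2 ^ j} : Set G) ⊓ Subgroup.centralizer ({f} : Set G)
        ≤ K ⊓ Subgroup.centralizer ({f} : Set G) := inf_le_inf_right _ inf_le_left
    exact Subgroup.commutator_mono h3 h3 h2

theorem transfer_finset (h : Law G) {w : G} (hw : w ∈ commutator G) {i : ℕ}
    (hi : w ^ 2 ^ i = 1) (B : Subgroup G) (hB : ∀ f ∈ B, ∃ j : ℕ, f ^ 2 ^ j = 1)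
    (hab : ∀ f ∈ B, ∀ g ∈ B, Commute f g) (hwB : w ∈ B) (F : Finset G) :
    (F : Set G) ⊆ B →
      w ∈ ⁅Subgroup.centralizer (F : Set G), Subgroup.centralizer (F : Set G)⁆ := by
  classical
  induction F using Finset.induction_on with
  | empty =>
    intro _
    have : (⊤ : Subgroup G) ≤ Subgroup.centralizer ((∅ : Finset G) : Set G) := by
      intro g _ x hx
      simp at hx
    exact Subgroup.commutator_mono this this hw
  | insert f F _ ih =>
    intro hF
    have hf : f ∈ B := hF (by simp)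
    have hF' : (F : Set G) ⊆ B := fun x hx => hF (by simp [Finset.mem_coe.mp hx])
    obtain ⟨j, hj⟩ := hB f hf
    have h1 := transfer_pow h hi (hab f hf w hwB) j (Subgroup.centralizer (F : Set G))
      (fun x hx => (hab x (hF' hx) f hf).eq) (fun g _ => by rw [hj, one_mul, mul_one]) (ih hF')
    have h2 : Subgroup.centralizer (F : Set G) ⊓ Subgroup.centralizer ({f} : Set G)
        ≤ Subgroup.centralizer ((insert f F : Finset G) : Set G) := by
      intro g hg x hx
      rcases Finset.mem_insert.mp (Finset.mem_coe.mp hx) with rfl | hx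
      · exact (Subgroup.mem_centralizer_singleton_iff.mp hg.2).symm
      · exact hg.1 x hx
    exact Subgroup.commutator_mono h2 h2 h1

theorem com_mem {c : G} (hc : c ∈ Com G) : c ∈ commutator G := by
  obtain ⟨x, y, rfl⟩ := hc
  exact Subgroup.commutator_mem_commutator (Subgroup.mem_top x) (Subgroup.mem_top y)

theorem exists_max_two {a : G} (ha : a ∈ commutator G) (h2 : a ^ 2 = 1) :
    ∃ B : Subgroup G, B ≤ commutator G ∧ IsPGroup 2 B ∧ a ∈ B ∧
      ∀ Q : Subgroup G, Q ≤ commutator G → IsPGroup 2 Q → B ≤ Q → Q ≤ B := by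
  have hp : IsPGroup 2 (Subgroup.zpowers (⟨a, ha⟩ : commutator G)) := by
    rintro ⟨_, n, rfl⟩
    refine ⟨1, Subtype.ext (Subtype.ext ?_)⟩
    show (a ^ n) ^ 2 ^ 1 = 1
    rw [pow_one, ← zpow_natCast, ← zpow_mul, mul_comm, zpow_mul, zpow_natCast, h2, one_zpow]
  obtain ⟨P, hP⟩ := hp.exists_le_sylow
  refine ⟨(P : Subgroup (commutator G)).map (commutator G).subtype, Subgroup.map_subtype_le _,
    P.isPGroup'.map _, ⟨_, hP (Subgroup.mem_zpowers _), rfl⟩, ?_⟩
  intro Q hQ hQ2 hle x hx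
  have := P.is_maximal' (Q := Q.comap (commutator G).subtype) hQ2.comap_subtype
    (fun y hy => hle ⟨y, hy, rfl⟩)
  refine ⟨⟨x, hQ hx⟩, ?_, rfl⟩
  have hx' : (⟨x, hQ hx⟩ : commutator G) ∈ Q.comap (commutator G).subtype := hx
  rw [this] at hx'
  exact hx'

theorem five_of_cent (h : Law G) (hord : OnFour G fun u => ∃ j : ℕ, u ^ (2 ^ j * 75) = 1)
    (hc : ∀ B : Subgroup G, B ≤ commutator G → IsPGroup 2 B → ∃ F : Finset G, (F : Set G) ⊆ B ∧
      Subgroup.centralizer (F : Set G) = Subgroup.centralizer (B : Set G)) :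
    ∀ g ∈ commutator G, Five g := by
  have hno : ∀ b ∈ commutator G, b ^ 2 ∈ (⊥ : Subgroup G) → b ∈ (⊥ : Subgroup G) := by
    intro a ha ha2
    rw [Subgroup.mem_bot] at ha2 ⊢
    obtain ⟨B, hB1, hB2, haB, hmax⟩ := exists_max_two ha ha2
    have hB : ∀ f ∈ B, ∃ j : ℕ, f ^ 2 ^ j = 1 := fun f hf =>
      (hB2 ⟨f, hf⟩).imp fun _ hj => congrArg Subtype.val hj
    have hab : ∀ f ∈ B, ∀ g ∈ B, Commute f g := by
      intro f hf g hg
      obtain ⟨j, hj⟩ := hB _ (mul_mem (mul_mem (mul_mem hf hg) (inv_mem hf)) (inv_mem hg))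
      have hco : Nat.Coprime 5 (2 ^ j) := Nat.Coprime.pow_right j (by norm_num)
      have h1 := (pow_eq_one_iff_of_coprime hco).mp ⟨h f g, hj⟩
      exact commutatorElement_eq_one_iff_commute.mp h1
    obtain ⟨F, hF, e⟩ := hc B hB1 hB2
    have h1 := transfer_finset h ha (i := 1) (by simpa using ha2) B hB hab haB F hF
    rw [e] at h1
    set C := Subgroup.centralizer (B : Set G) with hC
    have hcom : ∀ c ∈ Com C, (c : G) ∈ Com G := by
      rintro _ ⟨x, y, rfl⟩
      exact ⟨x, y, rfl⟩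
    have key := five_of_four_center (h.sub C) (by
      intro c1 k1 c2 k2 c3 k3 c4 k4
      right
      set u := c1 * c2 * c3 * c4 with hu
      obtain ⟨j, hj⟩ := hord _ (hcom _ k1) _ (hcom _ k2) _ (hcom _ k3) _ (hcom _ k4)
      have hj' : ((u : G) ^ 75) ^ 2 ^ j = 1 := by
        rw [← pow_mul, mul_comm]; exact hj
      have huG : (u : G) ∈ commutator G :=
        mul_mem (mul_mem (mul_mem (com_mem (hcom _ k1)) (com_mem (hcom _ k2)))
          (com_mem (hcom _ k3))) (com_mem (hcom _ k4))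
      have htC : (u : G) ^ 75 ∈ C := pow_mem u.2 _
      have hz : IsPGroup 2 (Subgroup.zpowers ((u : G) ^ 75)) := by
        rintro ⟨_, n, rfl⟩
        refine ⟨j, Subtype.ext ?_⟩
        show (((u : G) ^ 75) ^ n) ^ 2 ^ j = 1
        rw [← zpow_natCast, ← zpow_mul, mul_comm, zpow_mul, zpow_natCast, hj', one_zpow]
      have hsup := hz.to_sup_of_normal_right' hB2
        ((Subgroup.zpowers_le.mpr htC).trans (Subgroup.centralizer_le_normalizer _))
      have htB : (u : G) ^ 75 ∈ B :=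
        hmax _ (sup_le (Subgroup.zpowers_le.mpr (pow_mem huG _)) hB1) hsup le_sup_right
          (Subgroup.mem_sup_left (Subgroup.mem_zpowers _))
      rw [Subgroup.mem_center_iff]
      intro g
      exact Subtype.ext (g.2 _ htB).symm)
    rw [← Subgroup.map_subtype_commutator] at h1
    obtain ⟨a', ha', e'⟩ := h1
    obtain ⟨k, hk⟩ := key a' ha'
    have hk' : a ^ 5 ^ k = 1 := by
      rw [← e']
      exact congrArg Subtype.val hk
    have hco : Nat.Coprime 2 (5 ^ k) := Nat.Coprime.pow_right k (by norm_num)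
    exact (pow_eq_one_iff_of_coprime hco).mp ⟨ha2, hk'⟩
  refine five_of_four_center h ?_
  intro c1 k1 c2 k2 c3 k3 c4 k4
  right
  obtain ⟨j, hj⟩ := hord c1 k1 c2 k2 c3 k3 c4 k4
  have huG : c1 * c2 * c3 * c4 ∈ commutator G :=
    mul_mem (mul_mem (mul_mem (com_mem k1) (com_mem k2)) (com_mem k3)) (com_mem k4)
  have : (c1 * c2 * c3 * c4) ^ 75 ∈ (⊥ : Subgroup G) := by
    refine strip_two hno j _ (pow_mem huG _) ?_
    rw [← pow_mul, mul_comm, hj]
    exact one_mem _
  rw [Subgroup.mem_bot.mp this]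
  exact one_mem _

end

end Pool.Agent.Lib.MP_307af1_al
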