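import Mathlib
import Pool.Agent.Lib.MP_307af1_al.Cent

/-!
Groups all of whose commutators have order dividing five: the centraliser condition, modulo the
centre.
-/

namespace Pool.Agent.Lib.MP_307af1_al

section
variable {G : Type*} [Group G]

theorem commute_of_center (h : Law G) {f g : G} {j : ℕ} (hf : f ^ 2 ^ j ∈ Subgroup.center G)
    (hz : f * g * f⁻¹ * g⁻¹ ∈ Subgroup.center G) : f * g = g * f := by
  set z := f * g * f⁻¹ * g⁻¹ with hzd
  have e1 : g * f⁻¹ * g⁻¹ = f⁻¹ * z := by rw [hzd]; group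
  have hc : Commute f⁻¹ z := Subgroup.mem_center_iff.mp hz f⁻¹
  have e2 : (g * f⁻¹ * g⁻¹) ^ 2 ^ j = f⁻¹ ^ 2 ^ j := by
    rw [conj_pow, inv_pow, Subgroup.mem_center_iff.mp (inv_mem hf) g]; group
  rw [e1, hc.mul_pow] at e2
  have e3 : z ^ 2 ^ j = 1 := by simpa using e2
  have hco : Nat.Coprime 5 (2 ^ j) := Nat.Coprime.pow_right j (by norm_num)
  have h1 : z = 1 := (pow_eq_one_iff_of_coprime hco).mp ⟨h f g, e3⟩
  rw [hzd] at h1
  exact commutatorElement_eq_one_iff_mul_comm.mp h1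

theorem five_of_cent_center (h : Law G)
    (hord : OnFour G fun u => ∃ j : ℕ, u ^ (2 ^ j * 75) ∈ Subgroup.center G)
    (hc : ∀ B : Subgroup G, B ≤ commutator G → (∀ b ∈ B, ∃ j : ℕ, b ^ 2 ^ j ∈ Subgroup.center G) →
      ∃ F : Finset G, (F : Set G) ⊆ B ∧
        Subgroup.centralizer (F : Set G) = Subgroup.centralizer (B : Set G)) :
    ∀ g ∈ commutator G, Five g := by
  classical
  set p := QuotientGroup.mk' (Subgroup.center G) with hp
  have hker : ∀ x : G, p x = 1 ↔ x ∈ Subgroup.center G := fun x => QuotientGroup.eq_one_iff x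
  have key := five_of_cent (h.quot (Subgroup.center G)) (OnFour.quot _ (by
    intro c1 k1 c2 k2 c3 k3 c4 k4
    obtain ⟨j, hj⟩ := hord c1 k1 c2 k2 c3 k3 c4 k4
    exact ⟨j, by rw [← map_pow]; exact (hker _).mpr hj⟩)) (by
    intro B hB hB2
    have h2 : ∀ b ∈ B.comap p ⊓ commutator G, ∃ j : ℕ, b ^ 2 ^ j ∈ Subgroup.center G := by
      intro b hb
      obtain ⟨j, hj⟩ := hB2 ⟨p b, hb.1⟩
      exact ⟨j, (hker _).mp (by rw [map_pow]; exact congrArg Subtype.val hj)⟩
    obtain ⟨F, hF, e⟩ := hc (B.comap p ⊓ commutator G) inf_le_right h2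
    have hFB : ((F.image p : Finset _) : Set (G ⧸ Subgroup.center G)) ⊆ B := by
      intro x hx
      obtain ⟨f, hf, rfl⟩ := Finset.mem_image.mp (Finset.mem_coe.mp hx)
      exact (hF hf).1
    refine ⟨F.image p, hFB, le_antisymm ?_ (Subgroup.centralizer_le hFB)⟩
    intro g hg b hb
    obtain ⟨g, rfl⟩ := QuotientGroup.mk'_surjective (Subgroup.center G) g
    have hb' := hB hb
    rw [← map_commutator_quot] at hb'
    obtain ⟨b, hb', rfl⟩ := hb'
    have hg' : g ∈ Subgroup.centralizer (F : Set G) := by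
      intro f hf
      obtain ⟨j, hj⟩ := h2 f (hF hf)
      refine commute_of_center h hj ((hker _).mp ?_)
      have := hg (p f) (Finset.mem_coe.mpr (Finset.mem_image_of_mem p hf))
      rw [map_mul, map_mul, map_mul, map_inv, map_inv]
      exact commutatorElement_eq_one_iff_mul_comm.mpr this
    rw [e] at hg'
    rw [← map_mul, ← map_mul, hg' b ⟨hb, hb'⟩])
  refine five_of_four_center h ?_
  intro c1 k1 c2 k2 c3 k3 c4 k4
  right
  obtain ⟨j, hj⟩ := hord c1 k1 c2 k2 c3 k3 c4 k4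
  have huG : c1 * c2 * c3 * c4 ∈ commutator G :=
    mul_mem (mul_mem (mul_mem (com_mem k1) (com_mem k2)) (com_mem k3)) (com_mem k4)
  obtain ⟨k, hk⟩ := (key (p (c1 * c2 * c3 * c4)) (by
    rw [← map_commutator_quot]; exact ⟨_, huG, rfl⟩)).pow 75
  have h1 : (p (c1 * c2 * c3 * c4) ^ 75) ^ 2 ^ j = 1 := by
    rw [← pow_mul, mul_comm 75, ← map_pow]
    exact (hker _).mpr hj
  have hco : Nat.Coprime (5 ^ k) (2 ^ j) := Nat.Coprime.pow k j (by norm_num)
  have h2 := (pow_eq_one_iff_of_coprime hco).mp ⟨hk, h1⟩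
  rw [← map_pow] at h2
  exact (hker _).mp h2

end

end Pool.Agent.Lib.MP_307af1_al
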